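import Pool.Agent.K3h44.RQ.Stm
import Pool.Agent.Y546.WQ.QCrit
import Pool.Agent.K3h44.ER.Furt

/-!
# Project RQ: the end of the proof, from the congruence `t ^ 2 = 4 A B` for the norms
-/

set_option autoImplicit false

namespace Pool.Agent.K3h44.RQ

open NumberField IsDedekindDomain Polynomial Pool.Agent.Y546.WQ
open Pool.Agent.Y546 (SG.exists_conj)

section arith

variable {p : ℕ} [Fact p.Prime]

theorem nz (h7 : 7 ≤ p) (n : ℕ) (hn : 0 < n) (h : n < 7) : (n : ZMod p) ≠ 0 := by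
  refine natc_ne Fact.out n fun hd => ?_
  have := Nat.le_of_dvd hn hd
  omega

end arith

section

variable {K : Type} [Field K] [NumberField K]

/-- the congruence for all pairs -/
def Div (p : ℕ) (K : Type) [Field K] [NumberField K] (σ : 𝓞 K →+* 𝓞 K) : Prop :=
  ∀ X Y Z : 𝓞 K, Sol p K X Y Z → (p : ℤ) ∣ Algebra.trace ℤ (𝓞 K) (X * σ Y) ^ 2 -
    4 * (Algebra.norm ℤ X * Algebra.norm ℤ Y)

theorem fin2 {p : ℕ} (hp : p.Prime) (h7 : 7 ≤ p) (hW : ¬ p ^ 2 ∣ 2 ^ (p - 1) - 1)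
    (hK : Module.finrank ℚ K = 2) (σ : 𝓞 K →+* 𝓞 K)
    (hN : ∀ a : 𝓞 K, ((Algebra.norm ℤ a : ℤ) : 𝓞 K) = a * σ a)
    (hT : ∀ a : 𝓞 K, ((Algebra.trace ℤ (𝓞 K) a : ℤ) : 𝓞 K) = a + σ a) (hdiv : Div p K σ)
    {x y z : K} (hx : x ≠ 0) (hy : y ≠ 0) (hz : z ≠ 0) (h : x ^ p + y ^ p + z ^ p = 0)
    (hv : ∀ v : HeightOneSpectrum (𝓞 K), ((p : ℕ) : 𝓞 K) ∈ v.asIdeal →
      v.valuation K x = v.valuation K y ∧ v.valuation K y = v.valuation K z) : False := by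
  have hfact : Fact p.Prime := ⟨hp⟩
  have hp2 : p ≠ 2 := by omega
  obtain ⟨E, _, _, ⟨c⟩⟩ := Y978.WQ.main p hp2
  obtain ⟨X, Y, Z, hX, hY0, hZ, hXYZ, hcp, h2⟩ := prep hp hx hy hz h hv
  have hs : SolQ p K X Y Z := ⟨⟨hX, hY0, hZ, hXYZ, hcp⟩, fun P hP h2P =>
    ⟨lin_2 hp (by omega) P hP h2P (pow_four σ hN hT P hP h2P) hXYZ, h2 P hP h2P⟩⟩
  have hzero : ∀ (d : ℤ), (p : ℤ) ∣ d → ∀ u : ZMod p, u ≠ 0 → ∀ k : ZMod p, u ^ 2 = k * d → False := by
    intro d hd u hu k h1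
    rw [(ZMod.intCast_zmod_eq_zero_iff_dvd d p).2 hd, mul_zero] at h1
    exact pow_ne_zero 2 hu h1
  -- the three cases
  have cI : ∀ U V W : 𝓞 K, SolQ p K U V W → Even (Algebra.norm ℤ U) → Odd (Algebra.norm ℤ V) →
      Odd (Algebra.norm ℤ W) → False := by
    intro U V W s hU hV hW'
    have d1 := datQ h7 hW hK σ hN hT c s
    have d2 := datQ h7 hW hK σ hN hT c s.swap
    exact d1.A0 (caseI (by omega) _ _ _ _ _ hU hV hW' d1.c2 d2.c2 d1.cp d2.cp d1.W d2.W)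
  have cII : ∀ U V W : 𝓞 K, SolQ p K U V W → Even (Algebra.norm ℤ U) →
      Even (Algebra.norm ℤ V) → Odd (Algebra.norm ℤ W) → False := by
    intro U V W s hU hV hW'
    have d1 := datQ h7 hW hK σ hN hT c s
    have d2 := datQ h7 hW hK σ hN hT c s.swap
    have hd := hdiv _ _ _ s.sol
    obtain ⟨g1, g2, g3⟩ := caseII (by omega) _ _ _ _ _ 1 (Algebra.trace ℤ (𝓞 K) (U * σ V) ^ 2 -
      4 * (Algebra.norm ℤ U * Algebra.norm ℤ V)) hU hV hW' d1.c2 d2.c2 d1.cp d2.cp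
      d1.W d2.W d1.A0 (by ring)
    obtain ⟨r, hr0, hr⟩ := g3 (by omega)
    exact hzero _ hd r hr0 _ hr
  have cIII : ∀ U V W : 𝓞 K, SolQ p K U V W → Odd (Algebra.norm ℤ U) →
      Odd (Algebra.norm ℤ V) → Odd (Algebra.norm ℤ W) → False := by
    intro U V W s hU hV hW'
    have d1 := datQ h7 hW hK σ hN hT c s
    have d2 := datQ h7 hW hK σ hN hT c s.rot
    have hd := hdiv _ _ _ s.sol
    obtain ⟨g1, g3⟩ := caseIII (by omega) _ _ _ _ _ 1 (Algebra.trace ℤ (𝓞 K) (U * σ V) ^ 2 -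
      4 * (Algebra.norm ℤ U * Algebra.norm ℤ V)) hU hV hW' d1.c2 d2.c2 d1.cp
      d1.W d2.W d1.A0 (by ring)
    obtain ⟨r, hr0, hr⟩ := g3
    exact hzero _ hd r hr0 _ hr
  -- not all norms are even
  have hne : ¬ (Even (Algebra.norm ℤ X) ∧ Even (Algebra.norm ℤ Y) ∧
      Even (Algebra.norm ℤ Z)) := by
    rintro ⟨a1, a2, a3⟩
    obtain ⟨P, hP, hP2'⟩ := exists_above (K := K) 2 Nat.prime_two
    have hP2 : (2 : 𝓞 K) ∈ P := by exact_mod_cast hP2'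
    have hmem : ∀ w : 𝓞 K, Even (Algebra.norm ℤ w) → w ∈ P ∨ w ∈ P.comap σ := by
      intro w ⟨u, hu⟩
      have h1 : w * σ w ∈ P := by
        rw [← hN, hu]
        push_cast
        have : (u : 𝓞 K) + u = u * 2 := by ring
        rw [this]
        exact P.mul_mem_left _ hP2
      rcases hP.mem_or_mem h1 with h2 | h2
      · exact Or.inl h2
      · exact Or.inr h2
    have hP2σ : (2 : 𝓞 K) ∈ P.comap σ := by
      rw [Ideal.mem_comap, map_ofNat]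
      exact hP2
    have key : ∀ (R : Ideal (𝓞 K)), R.IsPrime → (2 : 𝓞 K) ∈ R →
        ¬ (X ∈ R ∧ Y ∈ R) ∧ ¬ (Y ∈ R ∧ Z ∈ R) ∧ ¬ (X ∈ R ∧ Z ∈ R) := by
      intro R hR h2R
      obtain ⟨h1, h2⟩ := hs.two R hR h2R
      refine ⟨fun h => h2 ⟨h.1, h.2, ?_⟩, fun h => h2 ⟨?_, h.1, h.2⟩, fun h => h2 ⟨h.1, ?_, h.2⟩⟩
      · have e : Z = (X + Y + Z) - X - Y := by ring
        rw [e]
        exact R.sub_mem (R.sub_mem h1 h.1) h.2
      · have e : X = (X + Y + Z) - Y - Z := by ring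
        rw [e]
        exact R.sub_mem (R.sub_mem h1 h.1) h.2
      · have e : Y = (X + Y + Z) - X - Z := by ring
        rw [e]
        exact R.sub_mem (R.sub_mem h1 h.1) h.2
    have hPσ : (P.comap σ).IsPrime := hP.comap σ
    have m1 := hmem X a1
    have m2 := hmem Y a2
    have m3 := hmem Z a3
    clear hmem
    generalize P.comap σ = R at hP2σ hPσ m1 m2 m3
    obtain ⟨k1, k2, k3⟩ := key P hP hP2
    obtain ⟨l1, l2, l3⟩ := key R hPσ hP2σ
    rcases m1 with m1 | m1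
    · rcases m2 with m2 | m2
      · exact k1 ⟨m1, m2⟩
      · rcases m3 with m3 | m3
        · exact k3 ⟨m1, m3⟩
        · exact l2 ⟨m2, m3⟩
    · rcases m2 with m2 | m2
      · rcases m3 with m3 | m3
        · exact k2 ⟨m2, m3⟩
        · exact l3 ⟨m1, m3⟩
      · exact l1 ⟨m1, m2⟩
  rcases Int.even_or_odd (Algebra.norm ℤ X) with a1 | a1 <;>
    rcases Int.even_or_odd (Algebra.norm ℤ Y) with a2 | a2 <;>
    rcases Int.even_or_odd (Algebra.norm ℤ Z) with a3 | a3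
  · exact hne ⟨a1, a2, a3⟩
  · exact cII X Y Z hs a1 a2 a3
  · exact cII X Z Y hs.swap a1 a3 a2
  · exact cI X Y Z hs a1 a2 a3
  · exact cII Y Z X hs.rot a2 a3 a1
  · exact cI Y Z X hs.rot a2 a3 a1
  · exact cI Z X Y hs.rot.rot a3 a1 a2
  · exact cIII X Y Z hs a1 a2 a3

/-- two norms are congruent if the relation for linear polynomials forces symmetry -/
theorem pairB {p : ℕ} [Fact p.Prime] (hSQ : S_SQR) (h7 : 7 ≤ p) (hK : Module.finrank ℚ K = 2)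
    (σ : 𝓞 K →+* 𝓞 K)
    (hN : ∀ a : 𝓞 K, ((Algebra.norm ℤ a : ℤ) : 𝓞 K) = a * σ a)
    (hT : ∀ a : 𝓞 K, ((Algebra.trace ℤ (𝓞 K) a : ℤ) : 𝓞 K) = a + σ a) (hdiv : Div p K σ)
    {E : Type} [Field E] [NumberField E] (c : Cyc p E)
    (hcond : p - 3 ∉ irr p ∨ ((irr p).card + 1) * ((irr p).card + 2) + 3 ≤ p)
    {X' Y' Z' : 𝓞 K} (s : Sol p K X' Y' Z') :
    ((Algebra.norm ℤ X' : ℤ) : ZMod p) = (Algebra.norm ℤ Y' : ℤ) ∧
      ((Algebra.norm ℤ Z' : ℤ) : ZMod p) = 4 * (Algebra.norm ℤ X' : ℤ) := by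
  have hpp : p.Prime := Fact.out
  have hp2 : p ≠ 2 := by omega
  obtain ⟨g1, g2, g3⟩ := Pool.Agent.K3h44.ER.fldS (by omega) hK σ hN hT c s _ _ _ rfl rfl rfl
  have dC := datC σ hK hN hT s
  have dC' := datC σ hK hN hT s.rot
  have hd := hdiv _ _ _ s
  obtain ⟨a, ha⟩ : ∃ a : ℤ, a = Algebra.norm ℤ X' := ⟨_, rfl⟩
  obtain ⟨b, hb⟩ : ∃ b : ℤ, b = Algebra.trace ℤ (𝓞 K) (X' * σ Y') := ⟨_, rfl⟩
  obtain ⟨e, he⟩ : ∃ e : ℤ, e = Algebra.norm ℤ Y' := ⟨_, rfl⟩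
  have hcp := dC.cp
  have A0 := dC.A0
  have B0 := dC'.A0
  rw [← ha, ← hb, ← he] at g1 g2 g3 hd hcp
  rw [← ha] at A0
  rw [← he] at B0
  rw [← ha, ← he]
  have hev1 : (C a + C b * X + C e * X ^ 2 : Polynomial ℤ).eval 1 = a + b + e := by simp
  have hp1 : ¬ (p : ℤ) ∣ (C a + C b * X + C e * X ^ 2 : Polynomial ℤ).eval 1 := by
    rw [hev1]; exact g1
  have hrel : Rel p ((C a + C b * X + C e * X ^ 2 : Polynomial ℤ).map
      (Int.castRingHom (ZMod p))) := by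
    intro a' ha' hap'
    obtain ⟨g', hg', k', hk'⟩ := relGA aUNITA hp2 a' ha' hap' c _ _ g1 hp1 g2 g3
    obtain ⟨r', hr', hdv'⟩ := Y919.WQ.mainLAMA p hp2 a' ha' hap' E c _ _ g1 hp1 g' hg' k' hk'
    exact ⟨k', r', hr', hdv'⟩
  have n2 := nz h7 2 (by norm_num) (by norm_num)
  push_cast at n2
  have hd' : ((b : ZMod p)) ^ 2 = 4 * (a * e) := by
    have := (ZMod.intCast_zmod_eq_zero_iff_dvd _ p).2 hd
    push_cast at this
    linear_combination this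
  obtain ⟨s', hs'⟩ : ∃ s' : ZMod p, s' = b / (2 * a) := ⟨_, rfl⟩
  have h2a : (2 : ZMod p) * a ≠ 0 := mul_ne_zero n2 A0
  have hb2 : (b : ZMod p) = 2 * a * s' := by
    rw [hs']
    field_simp
  have he2 : (e : ZMod p) = a * s' ^ 2 := by
    have h1 : (4 : ZMod p) * a * (e - a * s' ^ 2) = 0 := by
      rw [hb2] at hd'
      linear_combination -hd'
    have n4 : (4 : ZMod p) ≠ 0 := by
      have : (4 : ZMod p) = 2 * 2 := by norm_num
      rw [this]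
      exact mul_ne_zero n2 n2
    exact sub_eq_zero.1 ((mul_eq_zero.1 h1).resolve_left (mul_ne_zero n4 A0))
  have hs0 : s' ≠ 0 := by
    rintro h0
    rw [h0] at he2
    apply B0
    rw [he2]
    ring
  have h1s : 1 + s' ≠ 0 := by
    intro h0
    apply g1
    rw [← ZMod.intCast_zmod_eq_zero_iff_dvd]
    push_cast
    rw [hb2, he2]
    linear_combination (a : ZMod p) * (1 + s') * h0
  have hmap : (C a + C b * X + C e * X ^ 2 : Polynomial ℤ).map (Int.castRingHom (ZMod p)) =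
      C (a : ZMod p) * (1 + C s' * X) ^ 2 := by
    have hm : (C a + C b * X + C e * X ^ 2 : Polynomial ℤ).map (Int.castRingHom (ZMod p)) =
        C (a : ZMod p) + C (b : ZMod p) * X + C (e : ZMod p) * X ^ 2 := by
      simp
    rw [hm, hb2, he2]
    simp only [map_mul, map_pow, map_ofNat]
    ring
  rw [hmap] at hrel
  have hrel' := hSQ p hp2 _ _ A0 h1s hrel
  have hdeg : (1 + C s' * X : Polynomial (ZMod p)).natDegree ≤ 1 := by
    compute_degree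
  have hc0 : (1 + C s' * X : Polynomial (ZMod p)).coeff 0 ≠ 0 := by simp
  have hc1 : (1 + C s' * X : Polynomial (ZMod p)).coeff 1 ≠ 0 := by
    simpa [coeff_one] using hs0
  have hev : (1 + C s' * X : Polynomial (ZMod p)).eval 1 ≠ 0 := by
    simpa using h1s
  have hsym : (1 + C s' * X : Polynomial (ZMod p)).reflect 1 = 1 + C s' * X := by
    rcases hcond with h3 | hi
    · have hreg : Reg p 3 := reg_of Y61.WQ.mainBER 3 (by decide) le_rfl (by omega) h3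
      refine Y510.WQ.mainPOLBA Y275.WQ.mainCOREA p 1 _ (by omega) hdeg hc0 hc1 hev hrel' ?_
      intro j hj h3j hj'
      have : j = 3 := by omega
      rw [this]
      exact hreg
    · refine Y590.WQ.mainPOLE Y780.WQ.mainPOLE1 Y286.WQ.mainPOLE2 p 1 _
        ((irr p).image fun k => p - k) (by norm_num) hdeg hc0 hc1 hev hrel' ?_ ?_
      · intro j hj h3j hjp hjn
        refine reg_of Y61.WQ.mainBER j hj h3j hjp fun hk => hjn ?_
        rw [Finset.mem_image]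
        exact ⟨p - j, hk, by omega⟩
      · rw [one_mul]
        refine le_trans ?_ hi
        have : ((irr p).image fun k => p - k).card ≤ (irr p).card := Finset.card_image_le
        gcongr
  have hs1 : s' = 1 := by
    have h1 := congrArg (fun g => g.coeff 0) hsym
    simp only [coeff_reflect, revAt_le (Nat.zero_le 1), Nat.sub_zero] at h1
    simpa [coeff_one] using h1
  rw [hs1] at hb2 he2
  refine ⟨by rw [he2]; ring, ?_⟩
  rw [← hcp, hb2, he2]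
  ring

theorem finB {p : ℕ} (hSQ : S_SQR) (hp : p.Prime) (h7 : 7 ≤ p)
    (hcond : p - 3 ∉ irr p ∨ ((irr p).card + 1) * ((irr p).card + 2) + 3 ≤ p)
    (hK : Module.finrank ℚ K = 2) (σ : 𝓞 K →+* 𝓞 K)
    (hN : ∀ a : 𝓞 K, ((Algebra.norm ℤ a : ℤ) : 𝓞 K) = a * σ a)
    (hT : ∀ a : 𝓞 K, ((Algebra.trace ℤ (𝓞 K) a : ℤ) : 𝓞 K) = a + σ a) (hdiv : Div p K σ)
    {x y z : K} (hx : x ≠ 0) (hy : y ≠ 0) (hz : z ≠ 0) (h : x ^ p + y ^ p + z ^ p = 0)
    (hv : ∀ v : HeightOneSpectrum (𝓞 K), ((p : ℕ) : 𝓞 K) ∈ v.asIdeal →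
      v.valuation K x = v.valuation K y ∧ v.valuation K y = v.valuation K z) : False := by
  have hfact : Fact p.Prime := ⟨hp⟩
  have hp2 : p ≠ 2 := by omega
  obtain ⟨E, _, _, ⟨c⟩⟩ := Y978.WQ.main p hp2
  obtain ⟨X, Y, Z, hX, hY0, hZ, hXYZ, hcp, h2⟩ := prep hp hx hy hz h hv
  have s : Sol p K X Y Z := ⟨hX, hY0, hZ, hXYZ, hcp⟩
  obtain ⟨e1, e2⟩ := pairB hSQ h7 hK σ hN hT hdiv c hcond s
  obtain ⟨e3, e4⟩ := pairB hSQ h7 hK σ hN hT hdiv c hcond s.rot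
  have A0 := (datC σ hK hN hT s).A0
  have n3 := nz h7 3 (by norm_num) (by norm_num)
  push_cast at n3
  refine mul_ne_zero n3 A0 ?_
  rw [e2, ← e1] at e3
  linear_combination -e3

end

end Pool.Agent.K3h44.RQ
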