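import Pool.Agent.K3h44.RQ.Stm
import Pool.Agent.K3h44.RQ.Fin
import Pool.Agent.Y686.WQ.DOWN

/-!
# Project RQ: from the Stickelberger relation to the congruence for the norms
-/

set_option autoImplicit false

namespace Pool.Agent.K3h44.RQ

open NumberField IsDedekindDomain Pool.Agent.Y546.WQ
open WithZero (exp)

section

variable {m : ℕ} [NeZero m] {F : Type} [Field F] [NumberField F]

/-- the Stickelberger relation with a root of unity of order `p` -/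
theorem relM (hU : S_UNITM) (hA : S_APPR) {p k : ℕ} (hp : p.Prime) (hp2 : p ≠ 2)
    (hm : m = p * k) (hk : ¬ p ∣ k) (a : ℕ) (ha : 0 < a) (ham : a + 2 ≤ m) (c : CycM m F)
    (x : F) (hx : x ≠ 0)
    (hv : ∀ P : HeightOneSpectrum (𝓞 F), ∃ n : ℤ, P.valuation F x = exp ((p : ℤ) * n)) :
    ∃ g : F, g ≠ 0 ∧ ∃ i : ℕ, thM c (hfM m a) x = (c.z ^ k) ^ i * g ^ p := by
  have hm0 : m ≠ 0 := NeZero.ne m
  have hp3 : 3 ≤ p := by
    have := hp.two_le
    omega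
  obtain ⟨b, hb, hb1⟩ := hA F m p hm0 hp.pos x hx hv
  have hv' : ∀ P : HeightOneSpectrum (𝓞 F), ∃ n : ℤ, P.valuation F (x * b ^ p) =
      exp ((p : ℤ) * n) := by
    intro P
    obtain ⟨n, hn⟩ := hv P
    have hb0 : P.valuation F b ≠ 0 := (Valuation.ne_zero_iff _).2 hb
    obtain ⟨l, hl⟩ : ∃ l : ℤ, P.valuation F b = exp l :=
      ⟨WithZero.log (P.valuation F b), by rw [WithZero.exp_log hb0]⟩
    refine ⟨n + l, ?_⟩
    rw [map_mul, map_pow, hn, hl, ← WithZero.exp_nsmul, ← WithZero.exp_add]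
    congr 1
    rw [nsmul_eq_mul]
    ring
  obtain ⟨g, hg, i, hi⟩ := hU m (by omega) p (hp.odd_of_ne_two hp2) a ha ham F c (x * b ^ p)
    (mul_ne_zero hx (pow_ne_zero _ hb)) hv' hb1
  have hmul : thM c (hfM m a) (x * b ^ p) = thM c (hfM m a) x * (thM c (hfM m a) b) ^ p := by
    unfold thM
    rw [← Finset.prod_pow, ← Finset.prod_mul_distrib]
    exact Finset.prod_congr rfl fun t _ => by rw [map_mul, map_pow]
  have hb0 : thM c (hfM m a) b ≠ 0 := by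
    unfold thM
    exact Finset.prod_ne_zero_iff.2 fun t _ => by rw [Ne, map_eq_zero]; exact hb
  have hz : c.z ≠ 0 := c.prim.ne_zero hm0
  -- the exponent
  have hcop : Nat.Coprime k p := ((Nat.Prime.coprime_iff_not_dvd hp).2 hk).symm
  obtain ⟨i', hi'⟩ : ∃ i' : ℕ, (p : ℤ) ∣ (i : ℤ) - k * i' := by
    have : Fact p.Prime := ⟨hp⟩
    refine ⟨((i : ZMod p) * (k : ZMod p)⁻¹).val, ?_⟩
    rw [← ZMod.intCast_zmod_eq_zero_iff_dvd]
    push_cast
    rw [ZMod.natCast_zmod_val]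
    have hk0 : (k : ZMod p) ≠ 0 := by
      rw [Ne, ZMod.natCast_eq_zero_iff]
      exact hk
    field_simp
    ring
  obtain ⟨j, hj⟩ := hi'
  refine ⟨c.z ^ j * g / thM c (hfM m a) b, div_ne_zero (mul_ne_zero (zpow_ne_zero _ hz) hg) hb0,
    i', ?_⟩
  rw [div_pow, mul_pow, ← pow_mul, ← mul_div_assoc, eq_div_iff (pow_ne_zero _ hb0), ← hmul, hi,
    ← mul_assoc]
  congr 1
  rw [← zpow_natCast, ← zpow_natCast, ← zpow_natCast, ← zpow_mul, ← zpow_add₀ hz]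
  congr 1
  push_cast
  linear_combination hj

/-- the valuation at the image of a prime ideal -/
theorem val_lt_iff (P : HeightOneSpectrum (𝓞 F)) (w : 𝓞 F) :
    P.valuation F (w : F) < 1 ↔ w ∈ P.asIdeal := P.valuation_lt_one_iff_mem (K := F) w

end

section

variable {K : Type} [Field K] [NumberField K]

/-- the congruence for the norms -/
theorem divM (hU : S_UNITM) (hA : S_APPR) (hL : S_LAMM) {m : ℕ} [NeZero m] {F : Type} [Field F]
    [NumberField F] {p k : ℕ} (hp : p.Prime) (hp2 : p ≠ 2) (hm : m = p * k) (hk : ¬ p ∣ k)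
    (a : ℕ) (ha : 0 < a) (ham : a + 2 ≤ m) (c : CycM m F) (σ : 𝓞 K →+* 𝓞 K)
    (hN : ∀ a : 𝓞 K, ((Algebra.norm ℤ a : ℤ) : 𝓞 K) = a * σ a)
    (hT : ∀ a : 𝓞 K, ((Algebra.trace ℤ (𝓞 K) a : ℤ) : 𝓞 K) = a + σ a)
    (j : K →+* F) (χ : (ZMod m)ˣ → ℤ)
    (hj : ∀ t : (ZMod m)ˣ, (χ t = 1 ∧ ∀ x : 𝓞 K, c.σ t (j x) = j x) ∨
      (χ t = -1 ∧ ∀ x : 𝓞 K, c.σ t (j x) = j (σ x)))
    (t₀ : (ZMod m)ˣ) (ht₀ : χ t₀ = -1)
    (hne : (∑ t ∈ hfM m a, (χ t : ZMod p) * (((t⁻¹ : (ZMod m)ˣ) : ZMod m).val : ZMod p)) ≠ 0)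
    {X Y Z : 𝓞 K} (s : Sol p K X Y Z) : (p : ℤ) ∣ Algebra.trace ℤ (𝓞 K) (X * σ Y) ^ 2 -
    4 * (Algebra.norm ℤ X * Algebra.norm ℤ Y) := by
  classical
  have hpf : Fact p.Prime := ⟨hp⟩
  have hm0 : m ≠ 0 := NeZero.ne m
  have hk0 : k ≠ 0 := by
    rintro rfl
    exact hk (dvd_zero _)
  have hodd : Odd p := hp.odd_of_ne_two hp2
  have hσσ := conj_conj σ hT
  -- the map on integers
  obtain ⟨J, hJ⟩ : ∃ J : 𝓞 K →+* 𝓞 F, ∀ x : 𝓞 K, ((J x : 𝓞 F) : F) = j (x : K) :=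
    ⟨RingOfIntegers.mapRingHom j, fun x => rfl⟩
  have Jinj : Function.Injective J := by
    intro x y hxy
    apply RingOfIntegers.coe_injective
    apply j.injective
    rw [← RingOfIntegers.coe_eq_algebraMap, ← RingOfIntegers.coe_eq_algebraMap, ← hJ, ← hJ, hxy]
  -- the root of unity
  have hζ : IsPrimitiveRoot (c.z ^ k) p := c.prim.pow (Nat.pos_of_ne_zero hm0) (by rw [hm]; ring)
  obtain ⟨ζ, hζ1⟩ : ∃ w : 𝓞 F, (w : F) = c.z ^ k := ⟨⟨c.z ^ k, hζ.isIntegral hp.pos⟩, rfl⟩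
  have hζp : IsPrimitiveRoot ζ p := by
    apply IsPrimitiveRoot.of_map_of_injective (f := algebraMap (𝓞 F) F) _
      RingOfIntegers.coe_injective
    have h1 : algebraMap (𝓞 F) F ζ = c.z ^ k := hζ1
    rw [h1]
    exact hζ
  have hcase : ∀ P : Ideal (𝓞 F), P.IsPrime → ((p : ℕ) : 𝓞 F) ∈ P →
      J X ∉ P ∧ J Y ∉ P ∧ J Z ∉ P := by
    intro P hP hpP
    have := s.cp (P.comap J) (hP.comap J) (by rw [Ideal.mem_comap, map_natCast]; exact hpP)
    simpa [Ideal.mem_comap] using this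
  have hJeq : J X ^ p + J Y ^ p + J Z ^ p = 0 := by
    rw [← map_pow, ← map_pow, ← map_pow, ← map_add, ← map_add, s.eq, map_zero]
  obtain ⟨A, B, hA0, hB0, hAB⟩ := Y261.WQ.main p hp2 (𝓞 F) ζ hζp (J X) (J Y) (J Z)
    (fun h0 => s.X0 (Jinj (by rw [h0, map_zero]))) (fun h0 => s.Y0 (Jinj (by rw [h0, map_zero])))
    (fun h0 => s.Z0 (Jinj (by rw [h0, map_zero]))) hJeq (fun P hP hpP => (hcase P hP hpP).2.2)
  -- the sum is not divisible by `p`
  have hsum : ∀ P : Ideal (𝓞 F), P.IsPrime → ((p : ℕ) : 𝓞 F) ∈ P → J X + J Y ∉ P := by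
    intro P hP hpP h
    refine (hcase P hP hpP).2.2 (hP.mem_of_pow_mem p ?_)
    have e : J Z ^ p = -(J X ^ p + J Y ^ p) := by linear_combination hJeq
    rw [e]
    exact neg_mem (Ideal.mem_of_dvd P (Odd.add_dvd_pow_add_pow _ _ hodd) h)
  obtain ⟨M, hM, hpM⟩ := exists_above (K := F) p hp
  have hXY0 : J X + J Y ≠ 0 := by
    intro h0
    apply hsum M hM hpM
    rw [h0]
    exact zero_mem _
  have hXζ0 : J X + ζ * J Y ≠ 0 := by
    intro h0
    rw [h0, Ideal.span_singleton_eq_bot.2 rfl, Ideal.bot_mul] at hAB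
    have h2 := hAB.symm
    rw [Ideal.mul_eq_bot, Ideal.span_singleton_eq_bot] at h2
    rcases h2 with h2 | h2
    · exact hXY0 h2
    · exact hA0 ((pow_eq_zero_iff hp.ne_zero).1 h2)
  -- the element `w`
  have hD0 : j (X : K) + j (Y : K) ≠ 0 := by
    rw [← hJ, ← hJ]
    intro h0
    apply hXY0
    apply RingOfIntegers.coe_injective
    rw [map_add, map_zero]
    exact h0
  obtain ⟨w, hw⟩ : ∃ w : F, w = j (Y : K) / (j (X : K) + j (Y : K)) := ⟨_, rfl⟩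
  obtain ⟨x, hx⟩ : ∃ x : F, x = 1 - (1 - c.z ^ k) * w := ⟨_, rfl⟩
  have hx' : x * (j (X : K) + j (Y : K)) = j (X : K) + c.z ^ k * j (Y : K) := by
    rw [hx, hw]
    field_simp
    ring
  have hxv : ∀ P : HeightOneSpectrum (𝓞 F), ∃ n : ℤ, P.valuation F x = exp ((p : ℤ) * n) := by
    intro P
    obtain ⟨n, u, v, hu, hv, huv⟩ := Y686.WQ.count_eq P p hXζ0 hXY0 hA0 hB0 hAB
    have e1 : ((J X + ζ * J Y : 𝓞 F) : F) = j (X : K) + c.z ^ k * j (Y : K) := by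
      rw [← hJ, ← hJ, ← hζ1]
      rfl
    have e2 : ((J X + J Y : 𝓞 F) : F) = j (X : K) + j (Y : K) := by
      rw [← hJ, ← hJ]
      rfl
    rw [e1] at hu
    rw [e2] at hv
    refine ⟨-n, ?_⟩
    have h1 := congrArg (P.valuation F) hx'
    rw [map_mul, hu, hv] at h1
    have h2 : P.valuation F x = exp (-u) * exp v := by
      rw [← h1, mul_assoc, ← WithZero.exp_add, neg_add_cancel, WithZero.exp_zero, mul_one]
    rw [h2, ← WithZero.exp_add]
    congr 1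
    linear_combination -huv
  have hx0 : x ≠ 0 := by
    intro h0
    rw [h0, zero_mul] at hx'
    apply hXζ0
    apply RingOfIntegers.coe_injective
    rw [map_zero, map_add, map_mul]
    have e1 : algebraMap (𝓞 F) F (J X) = j (X : K) := hJ X
    have e2 : algebraMap (𝓞 F) F (J Y) = j (Y : K) := hJ Y
    have e3 : algebraMap (𝓞 F) F ζ = c.z ^ k := hζ1
    rw [e1, e2, e3]
    exact hx'.symm
  obtain ⟨g, hg, i, hi⟩ := relM hU hA hp hp2 hm hk a ha ham c x hx0 hxv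
  have hint : ∀ (P : HeightOneSpectrum (𝓞 F)) (u : 𝓞 K), P.valuation F (j (u : K)) ≤ 1 := by
    intro P u
    rw [← hJ]
    exact P.valuation_le_one (J u)
  have hsv : ∀ (P : HeightOneSpectrum (𝓞 F)), ((p : ℕ) : 𝓞 F) ∈ P.asIdeal →
      P.valuation F (j (X : K) + j (Y : K)) = 1 := by
    intro P hpP
    have e2 : j (X : K) + j (Y : K) = ((J X + J Y : 𝓞 F) : F) := by
      rw [← hJ, ← hJ]
      rfl
    rw [e2]
    refine le_antisymm (P.valuation_le_one _) (not_lt.1 fun h => ?_)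
    exact hsum P.asIdeal P.isPrime hpP ((val_lt_iff P _).1 h)
  have hwv : ∀ P : HeightOneSpectrum (𝓞 F), ((p : ℕ) : 𝓞 F) ∈ P.asIdeal →
      P.valuation F w ≤ 1 := by
    intro P hpP
    rw [hw, map_div₀, hsv P hpP, div_one]
    exact hint P Y
  rw [hx] at hi
  have hlam := hL m p k hp hp2 hm hk F c (hfM m a) w hwv g hg i hi
  -- the conjugates of `w`
  obtain ⟨w', hw'⟩ : ∃ w' : F, w' = j (σ Y : 𝓞 K) / (j (σ X : 𝓞 K) + j (σ Y : 𝓞 K)) := ⟨_, rfl⟩
  have hinv : ∀ t : (ZMod m)ˣ, (χ t = 1 ∧ c.σ t⁻¹ w = w) ∨ (χ t = -1 ∧ c.σ t⁻¹ w = w') := by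
    intro t
    have hcomp : ∀ y : F, c.σ t⁻¹ (c.σ t y) = y := by
      intro y
      have : (c.σ t⁻¹ * c.σ t) y = y := by
        rw [← map_mul, inv_mul_cancel, map_one]
        rfl
      exact this
    rcases hj t with ⟨h1, h2⟩ | ⟨h1, h2⟩
    · left
      refine ⟨h1, ?_⟩
      have e : ∀ u : 𝓞 K, c.σ t⁻¹ (j (u : K)) = j (u : K) := by
        intro u
        have := hcomp (j (u : K))
        rwa [h2] at this
      rw [hw, map_div₀, map_add, e, e]
    · right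
      refine ⟨h1, ?_⟩
      have e : ∀ u : 𝓞 K, c.σ t⁻¹ (j (u : K)) = j ((σ u : 𝓞 K) : K) := by
        intro u
        have := hcomp (j ((σ u : 𝓞 K) : K))
        rwa [h2, hσσ] at this
      rw [hw, hw', map_div₀, map_add, e, e]
  -- the two sums
  obtain ⟨n1, hn1⟩ : ∃ n1 : ℕ, n1 = ∑ t ∈ (hfM m a).filter (fun t => χ t = 1),
    ((t⁻¹ : (ZMod m)ˣ) : ZMod m).val := ⟨_, rfl⟩
  obtain ⟨n2, hn2⟩ : ∃ n2 : ℕ, n2 = ∑ t ∈ (hfM m a).filter (fun t => ¬ χ t = 1),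
    ((t⁻¹ : (ZMod m)ˣ) : ZMod m).val := ⟨_, rfl⟩
  have hS : ∑ t ∈ hfM m a, ((((t⁻¹ : (ZMod m)ˣ) : ZMod m).val : ℕ) : F) * c.σ t⁻¹ w =
      (n1 : F) * w + n2 * w' := by
    rw [← Finset.sum_filter_add_sum_filter_not (hfM m a) (fun t => χ t = 1), hn1, hn2]
    push_cast
    rw [Finset.sum_mul, Finset.sum_mul]
    congr 1
    · refine Finset.sum_congr rfl fun t ht => ?_
      have h1 := (Finset.mem_filter.1 ht).2
      rcases hinv t with ⟨-, h2⟩ | ⟨h2, -⟩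
      · rw [h2]
      · omega
    · refine Finset.sum_congr rfl fun t ht => ?_
      have h1 := (Finset.mem_filter.1 ht).2
      rcases hinv t with ⟨h2, -⟩ | ⟨-, h2⟩
      · exact absurd h2 h1
      · rw [h2]
  have hnn : ¬ (p : ℤ) ∣ (n1 : ℤ) - n2 := by
    intro hd
    apply hne
    rw [← ZMod.intCast_zmod_eq_zero_iff_dvd] at hd
    rw [← hd, ← Finset.sum_filter_add_sum_filter_not (hfM m a) (fun t => χ t = 1), hn1, hn2]
    push_cast
    rw [sub_eq_add_neg, ← Finset.sum_neg_distrib]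
    congr 1
    · refine Finset.sum_congr rfl fun t ht => ?_
      rw [(Finset.mem_filter.1 ht).2]
      simp
    · refine Finset.sum_congr rfl fun t ht => ?_
      have h1 := (Finset.mem_filter.1 ht).2
      rcases hj t with ⟨h2, -⟩ | ⟨h2, -⟩
      · exact absurd h2 h1
      · rw [h2]
        simp
  -- the integral element
  obtain ⟨E, hE⟩ : ∃ E : 𝓞 K, E = (n1 : 𝓞 K) * (Y * (σ X + σ Y)) + n2 * (σ Y * (X + Y)) -
    (i : 𝓞 K) * ((X + Y) * (σ X + σ Y)) := ⟨_, rfl⟩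
  have hD0' : j ((σ X : 𝓞 K) : K) + j ((σ Y : 𝓞 K) : K) ≠ 0 := by
    rcases hj t₀ with ⟨h1, -⟩ | ⟨-, h2⟩
    · omega
    · rw [← h2, ← h2, ← map_add, Ne, map_eq_zero]
      exact hD0
  have hjE : j (E : K) = (j (X : K) + j (Y : K)) * (j ((σ X : 𝓞 K) : K) + j ((σ Y : 𝓞 K) : K)) *
      ((n1 : F) * w + n2 * w' - i) := by
    have e1 : j (E : K) = (n1 : F) * (j (Y : K) * (j ((σ X : 𝓞 K) : K) + j ((σ Y : 𝓞 K) : K))) +
        n2 * (j ((σ Y : 𝓞 K) : K) * (j (X : K) + j (Y : K))) -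
        i * ((j (X : K) + j (Y : K)) * (j ((σ X : 𝓞 K) : K) + j ((σ Y : 𝓞 K) : K))) := by
      rw [hE]
      simp only [map_sub, map_add, map_mul, map_natCast]
    rw [e1, hw, hw']
    field_simp
  have hEv : ∀ P : HeightOneSpectrum (𝓞 F), ((p : ℕ) : 𝓞 F) ∈ P.asIdeal → J E ∈ P.asIdeal := by
    intro P hpP
    rw [← val_lt_iff, hJ, hjE, map_mul, map_mul, ← hS]
    have h1 := hlam P hpP
    have h2 : P.valuation F (j (X : K) + j (Y : K)) ≤ 1 := (hsv P hpP).le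
    have h3 : P.valuation F (j ((σ X : 𝓞 K) : K) + j ((σ Y : 𝓞 K) : K)) ≤ 1 := by
      have h4 := hint P (σ X + σ Y)
      have h5 : ((σ X + σ Y : 𝓞 K) : K) = ((σ X : 𝓞 K) : K) + ((σ Y : 𝓞 K) : K) := rfl
      rw [h5, map_add j] at h4
      exact h4
    calc _ ≤ 1 * 1 * P.valuation F _ := by
            gcongr
      _ < 1 := by rw [one_mul, one_mul]; exact h1
  -- the conjugate element
  have hE' : J (σ E) ∈ M := by
    obtain ⟨P', hP'⟩ : ∃ P' : HeightOneSpectrum (𝓞 F), P'.asIdeal = M.comap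
        (rsM c t₀ : 𝓞 F →+* 𝓞 F) := by
      have hM0 : M ≠ ⊥ := by
        rintro rfl
        rw [Ideal.mem_bot] at hpM
        exact hp.ne_zero (by exact_mod_cast hpM)
      exact ⟨actM c t₀ ⟨M, hM, hM0⟩, rfl⟩
    have h1 : J E ∈ P'.asIdeal := by
      apply hEv
      rw [hP', Ideal.mem_comap, map_natCast]
      exact hpM
    rw [hP', Ideal.mem_comap] at h1
    have h2 : (rsM c t₀ : 𝓞 F →+* 𝓞 F) (J E) = J (σ E) := by
      apply RingOfIntegers.coe_injective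
      have e1 : algebraMap (𝓞 F) F ((rsM c t₀ : 𝓞 F →+* 𝓞 F) (J E)) = c.σ t₀ (j (E : K)) := by
        rw [← hJ]
        rfl
      have e2 : algebraMap (𝓞 F) F (J (σ E)) = j ((σ E : 𝓞 K) : K) := hJ _
      rw [e1, e2]
      rcases hj t₀ with ⟨h1, -⟩ | ⟨-, h2⟩
      · omega
      · exact h2 E
    rwa [h2] at h1
  have hEM : J E ∈ M := by
    have hM0 : M ≠ ⊥ := by
      rintro rfl
      rw [Ideal.mem_bot] at hpM
      exact hp.ne_zero (by exact_mod_cast hpM)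
    exact hEv ⟨M, hM, hM0⟩ hpM
  have hdiff : E - σ E = ((n1 : ℤ) - n2 : ℤ) * (Y * σ X - X * σ Y) := by
    rw [hE]
    simp only [map_sub, map_add, map_mul, map_natCast, hσσ]
    push_cast
    ring
  have hmem : J (Y * σ X - X * σ Y) ∈ M := by
    have h1 : J (E - σ E) ∈ M := by
      rw [map_sub]
      exact M.sub_mem hEM hE'
    rw [hdiff, map_mul, map_intCast] at h1
    exact (hM.mem_or_mem h1).resolve_left (int_notMem M hM p hp hpM _ hnn)
  by_contra hcon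
  refine int_notMem M hM p hp hpM _ hcon ?_
  have h2 : ((Algebra.trace ℤ (𝓞 K) (X * σ Y) ^ 2 -
      4 * (Algebra.norm ℤ X * Algebra.norm ℤ Y) : ℤ) : 𝓞 K) =
      (Y * σ X - X * σ Y) * (Y * σ X - X * σ Y) := by
    push_cast
    rw [hT, hN, hN, map_mul, hσσ]
    ring
  have h3 := congrArg J h2
  rw [map_intCast] at h3
  rw [h3, map_mul]
  exact M.mul_mem_right _ hmem

end

end Pool.Agent.K3h44.RQ
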