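import Pool.Agent.K3h44.RQ.Stm2

/-!
# Project RQ, third part: the relation modulo `p` and higher coefficients: statements
-/

set_option autoImplicit false

namespace Pool.Agent.K3h44.RQ

open NumberField IsDedekindDomain Polynomial

/-- the value at an element of `F` of a polynomial with coefficients in the integers of `K` -/
noncomputable def evj {K F : Type} [Field K] [NumberField K] [Field F] (j : K →+* F) (u : F)
    (Φ : Polynomial (𝓞 K)) : F := Φ.eval₂ (j.comp (algebraMap (𝓞 K) K)) u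

/-- RELA: the conjugates under the inertia group of a relation `Φ(ζ) = D ζ^i g^p` -/
def S_RELA : Prop := ∀ (m : ℕ) [NeZero m] (p k : ℕ), p.Prime → p ≠ 2 → m = p * k → ¬ p ∣ k →
  ∀ (F : Type) [Field F] [NumberField F] (c : CycM m F) (K : Type) [Field K] [NumberField K]
  (j : K →+* F),
  (∀ u : (ZMod m)ˣ, (u : ZMod m).val % k = 1 % k → ∀ x : K, c.σ u (j x) = j x) →
  ∀ (Φ : Polynomial (𝓞 K)) (D : 𝓞 K) (i : ℕ) (g : F), g ≠ 0 →
  evj j (c.z ^ k) Φ = j (D : K) * (c.z ^ k) ^ i * g ^ p →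
  ∀ P : HeightOneSpectrum (𝓞 F), ((p : ℕ) : 𝓞 F) ∈ P.asIdeal → P.valuation F (j (D : K)) = 1 →
  P.valuation F (j ((Φ.eval 1 : 𝓞 K) : K)) = 1 → ∀ v : ℕ, ¬ p ∣ v →
  P.valuation F (evj j ((c.z ^ k) ^ v) Φ * (c.z ^ k) ^ i - evj j (c.z ^ k) Φ *
    (c.z ^ k) ^ (i * v)) ≤ WithZero.exp (-((p : ℤ) - 1))

/-- RELB: the polynomial congruence from the congruences at all powers of `ζ` -/
def S_RELB : Prop := ∀ (m : ℕ) [NeZero m] (p k : ℕ), p.Prime → p ≠ 2 → m = p * k → ¬ p ∣ k →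
  ∀ (F : Type) [Field F] [NumberField F] (c : CycM m F) (K : Type) [Field K] [NumberField K]
  (j : K →+* F),
  (∀ Q : Ideal (𝓞 K), ((p : ℕ) : 𝓞 K) ∈ Q ^ 2 → Q = ⊤) →
  ∀ (Φ : Polynomial (𝓞 K)) (i : ℕ) (P : HeightOneSpectrum (𝓞 F)),
  ((p : ℕ) : 𝓞 F) ∈ P.asIdeal →
  (∀ v : ℕ, ¬ p ∣ v →
    P.valuation F (evj j ((c.z ^ k) ^ v) Φ * (c.z ^ k) ^ i - evj j (c.z ^ k) Φ *
      (c.z ^ k) ^ (i * v)) ≤ WithZero.exp (-((p : ℤ) - 1))) →
  ∀ q : Ideal (𝓞 K), (∀ a : 𝓞 K, a ∈ q ↔ P.valuation F (j (a : K)) < 1) →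
  (X - 1) ^ (p - 1) ∣ Φ.map (Ideal.Quotient.mk q) -
    C (Ideal.Quotient.mk q (Φ.eval 1)) * X ^ i

/-- J3: the third coefficient of the logarithm of a product of linear polynomials in powers of the
variable -/
def S_J3 : Prop := ∀ (κ : Type) [Field κ] (p : ℕ) [CharP κ p], p.Prime → 5 ≤ p →
  ∀ (ι : Type) (H : Finset ι) (x y : ι → κ) (r : ι → ℕ) (ρ : κ) (i : ℕ), ρ ≠ 0 →
  (X - 1) ^ (p - 1) ∣ (∏ t ∈ H, (C (x t) + C (y t) * X ^ (r t))) - C ρ * X ^ i →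
  (∀ t ∈ H, x t + y t ≠ 0) →
  ∑ t ∈ H, (r t : κ) ^ 3 * (x t * y t * (x t - y t) / (x t + y t) ^ 3) = 0

/-- the sum `∑ χ(t) [t / p] / t ^ j` modulo `p`, over the `t` between `0` and `p D` prime to
`p D` -/
def TJ (d p j : ℕ) : ZMod p :=
  ∑ t ∈ (Finset.range (p * dsc d)).filter (fun t => t.Coprime (p * dsc d)),
    ((chi d t : ℤ) : ZMod p) * ((t / p : ℕ) : ZMod p) * ((t : ZMod p)⁻¹) ^ j

/-- FLJ: if the sum `TJ` is not zero then one of the twisted Stickelberger sums of exponent `j` is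
not zero -/
def S_FLJ : Prop := ∀ d p j : ℕ, 1 < d → Squarefree d → p.Prime → p ≠ 2 → ¬ p ∣ dsc d →
  TJ d p j ≠ 0 → ∃ a : ℕ, 0 < a ∧ a + 2 ≤ p * dsc d ∧
    (∑ t ∈ (Finset.range (p * dsc d)).filter (fun t => t.Coprime (p * dsc d) ∧
      p * dsc d < t + (a * t) % (p * dsc d)), ((chi d t : ℤ) : ZMod p) *
        ((t : ZMod p)⁻¹) ^ j) ≠ 0

/-- the generalized Bernoulli number `B_(n, χ)` for the quadratic character of `ℚ(√d)` -/
noncomputable def Bchi (d n : ℕ) : ℚ :=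
  (dsc d : ℚ) ^ (n - 1) * ∑ a ∈ (Finset.range (dsc d)).filter (fun a => a.Coprime (dsc d)),
    (chi d a : ℚ) * (Polynomial.bernoulli n).eval ((a : ℚ) / (dsc d : ℚ))

/-- BERJ: the sum `TJ` and the generalized Bernoulli numbers -/
def S_BERJ : Prop := ∀ d p j : ℕ, 1 < d → Squarefree d → p.Prime → p ≠ 2 → ¬ p ∣ dsc d →
  0 < j → j + 2 ≤ p → TJ d p j = 0 → (p : ℤ) ∣ (Bchi d (p - j)).num

/-- ALG3: three relations of order three -/
def S_ALG3 : Prop := ∀ (p : ℕ) [Fact p.Prime], 7 ≤ p → ∀ A B G : ZMod p, A ≠ 0 → B ≠ 0 → G ≠ 0 →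
  (A + B) * G = 2 * (A - B) ^ 2 → (B + G) * A = 2 * (B - G) ^ 2 → (G + A) * B = 2 * (G - A) ^ 2 →
  False

end Pool.Agent.K3h44.RQ
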