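import Pool.Agent.K3h44.RQ.Asm
import Pool.Agent.K3h44.RQ.Stm3

/-!
# Project RQ, third part: the relation of order three
-/

set_option autoImplicit false

namespace Pool.Agent.K3h44.RQ

open NumberField IsDedekindDomain Pool.Agent.Y546.WQ
open WithZero (exp)

section

variable {K : Type} [Field K] [NumberField K]

/-- the Stickelberger relation of a solution -/
theorem relSol (hU : S_UNITM) (hA : S_APPR) {m : ℕ} [NeZero m] {F : Type} [Field F]
    [NumberField F] {p k : ℕ} (hp : p.Prime) (hp2 : p ≠ 2) (hm : m = p * k) (hk : ¬ p ∣ k)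
    (a : ℕ) (ha : 0 < a) (ham : a + 2 ≤ m) (c : CycM m F) (j : K →+* F)
    {X Y Z : 𝓞 K} (s : Sol p K X Y Z) : j (X : K) + j (Y : K) ≠ 0 ∧
    ∃ g : F, g ≠ 0 ∧ ∃ i : ℕ, thM c (hfM m a) ((j (X : K) + c.z ^ k * j (Y : K)) /
      (j (X : K) + j (Y : K))) = (c.z ^ k) ^ i * g ^ p := by
  classical
  have hpf : Fact p.Prime := ⟨hp⟩
  have hm0 : m ≠ 0 := NeZero.ne m
  have hk0 : k ≠ 0 := by
    rintro rfl
    exact hk (dvd_zero _)
  have hodd : Odd p := hp.odd_of_ne_two hp2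
  -- the map on integers
  obtain ⟨J, hJ⟩ : ∃ J : 𝓞 K →+* 𝓞 F, ∀ x : 𝓞 K, ((J x : 𝓞 F) : F) = j (x : K) :=
    ⟨RingOfIntegers.mapRingHom j, fun x => rfl⟩
  have Jinj : Function.Injective J := by
    intro x y hxy
    apply RingOfIntegers.coe_injective
    apply j.injective
    rw [← RingOfIntegers.coe_eq_algebraMap, ← RingOfIntegers.coe_eq_algebraMap, ← hJ, ← hJ, hxy]
  -- the root of unity
  have hζ : IsPrimitiveRoot (c.z ^ k) p := c.prim.pow (Nat.pos_of_ne_zero hm0) (by rw [hm]; ring)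
  obtain ⟨ζ, hζ1⟩ : ∃ w : 𝓞 F, (w : F) = c.z ^ k := ⟨⟨c.z ^ k, hζ.isIntegral hp.pos⟩, rfl⟩
  have hζp : IsPrimitiveRoot ζ p := by
    apply IsPrimitiveRoot.of_map_of_injective (f := algebraMap (𝓞 F) F) _
      RingOfIntegers.coe_injective
    have h1 : algebraMap (𝓞 F) F ζ = c.z ^ k := hζ1
    rw [h1]
    exact hζ
  have hcase : ∀ P : Ideal (𝓞 F), P.IsPrime → ((p : ℕ) : 𝓞 F) ∈ P →
      J X ∉ P ∧ J Y ∉ P ∧ J Z ∉ P := by
    intro P hP hpP
    have := s.cp (P.comap J) (hP.comap J) (by rw [Ideal.mem_comap, map_natCast]; exact hpP)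
    simpa [Ideal.mem_comap] using this
  have hJeq : J X ^ p + J Y ^ p + J Z ^ p = 0 := by
    rw [← map_pow, ← map_pow, ← map_pow, ← map_add, ← map_add, s.eq, map_zero]
  obtain ⟨A, B, hA0, hB0, hAB⟩ := Y261.WQ.main p hp2 (𝓞 F) ζ hζp (J X) (J Y) (J Z)
    (fun h0 => s.X0 (Jinj (by rw [h0, map_zero]))) (fun h0 => s.Y0 (Jinj (by rw [h0, map_zero])))
    (fun h0 => s.Z0 (Jinj (by rw [h0, map_zero]))) hJeq (fun P hP hpP => (hcase P hP hpP).2.2)
  -- the sum is not divisible by `p`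
  have hsum : ∀ P : Ideal (𝓞 F), P.IsPrime → ((p : ℕ) : 𝓞 F) ∈ P → J X + J Y ∉ P := by
    intro P hP hpP h
    refine (hcase P hP hpP).2.2 (hP.mem_of_pow_mem p ?_)
    have e : J Z ^ p = -(J X ^ p + J Y ^ p) := by linear_combination hJeq
    rw [e]
    exact neg_mem (Ideal.mem_of_dvd P (Odd.add_dvd_pow_add_pow _ _ hodd) h)
  obtain ⟨M, hM, hpM⟩ := exists_above (K := F) p hp
  have hXY0 : J X + J Y ≠ 0 := by
    intro h0
    apply hsum M hM hpM
    rw [h0]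
    exact zero_mem _
  have hXζ0 : J X + ζ * J Y ≠ 0 := by
    intro h0
    rw [h0, Ideal.span_singleton_eq_bot.2 rfl, Ideal.bot_mul] at hAB
    have h2 := hAB.symm
    rw [Ideal.mul_eq_bot, Ideal.span_singleton_eq_bot] at h2
    rcases h2 with h2 | h2
    · exact hXY0 h2
    · exact hA0 ((pow_eq_zero_iff hp.ne_zero).1 h2)
  have hD0 : j (X : K) + j (Y : K) ≠ 0 := by
    rw [← hJ, ← hJ]
    intro h0
    apply hXY0
    apply RingOfIntegers.coe_injective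
    rw [map_add, map_zero]
    exact h0
  refine ⟨hD0, ?_⟩
  obtain ⟨x, hx⟩ : ∃ x : F, x = (j (X : K) + c.z ^ k * j (Y : K)) / (j (X : K) + j (Y : K)) :=
    ⟨_, rfl⟩
  have hx' : x * (j (X : K) + j (Y : K)) = j (X : K) + c.z ^ k * j (Y : K) := by
    rw [hx, div_mul_cancel₀ _ hD0]
  have hxv : ∀ P : HeightOneSpectrum (𝓞 F), ∃ n : ℤ, P.valuation F x = exp ((p : ℤ) * n) := by
    intro P
    obtain ⟨n, u, v, hu, hv, huv⟩ := Y686.WQ.count_eq P p hXζ0 hXY0 hA0 hB0 hAB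
    have e1 : ((J X + ζ * J Y : 𝓞 F) : F) = j (X : K) + c.z ^ k * j (Y : K) := by
      rw [← hJ, ← hJ, ← hζ1]
      rfl
    have e2 : ((J X + J Y : 𝓞 F) : F) = j (X : K) + j (Y : K) := by
      rw [← hJ, ← hJ]
      rfl
    rw [e1] at hu
    rw [e2] at hv
    refine ⟨-n, ?_⟩
    have h1 := congrArg (P.valuation F) hx'
    rw [map_mul, hu, hv] at h1
    have h2 : P.valuation F x = exp (-u) * exp v := by
      rw [← h1, mul_assoc, ← WithZero.exp_add, neg_add_cancel, WithZero.exp_zero, mul_one]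
    rw [h2, ← WithZero.exp_add]
    congr 1
    linear_combination -huv
  have hx0 : x ≠ 0 := by
    intro h0
    rw [h0, zero_mul] at hx'
    apply hXζ0
    apply RingOfIntegers.coe_injective
    rw [map_zero, map_add, map_mul]
    have e1 : algebraMap (𝓞 F) F (J X) = j (X : K) := hJ X
    have e2 : algebraMap (𝓞 F) F (J Y) = j (Y : K) := hJ Y
    have e3 : algebraMap (𝓞 F) F ζ = c.z ^ k := hζ1
    rw [e1, e2, e3]
    exact hx'.symm
  rw [← hx]
  exact relM hU hA hp hp2 hm hk a ha ham c x hx0 hxv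

/-- the congruence of order three for the norms -/
theorem divB (hU : S_UNITM) (hA : S_APPR) (hRA : S_RELA) (hRB : S_RELB) (hJ3 : S_J3) {m : ℕ}
    [NeZero m] {F : Type} [Field F] [NumberField F] {p k : ℕ} (hp : p.Prime) (h5 : 5 ≤ p)
    (hm : m = p * k) (hk : ¬ p ∣ k)
    (a : ℕ) (ha : 0 < a) (ham : a + 2 ≤ m) (c : CycM m F) (σ : 𝓞 K →+* 𝓞 K)
    (hN : ∀ a : 𝓞 K, ((Algebra.norm ℤ a : ℤ) : 𝓞 K) = a * σ a)
    (hT : ∀ a : 𝓞 K, ((Algebra.trace ℤ (𝓞 K) a : ℤ) : 𝓞 K) = a + σ a)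
    (j : K →+* F) (χ : (ZMod m)ˣ → ℤ)
    (hj : ∀ t : (ZMod m)ˣ, (χ t = 1 ∧ ∀ x : 𝓞 K, c.σ t (j x) = j x) ∨
      (χ t = -1 ∧ ∀ x : 𝓞 K, c.σ t (j x) = j (σ x)))
    (hχ : ∀ u : (ZMod m)ˣ, (u : ZMod m).val % k = 1 % k → χ u = 1)
    (hunr : ∀ Q : Ideal (𝓞 K), ((p : ℕ) : 𝓞 K) ∈ Q ^ 2 → Q = ⊤)
    (t₀ : (ZMod m)ˣ) (ht₀ : χ t₀ = -1)
    (hne : (∑ t ∈ hfM m a, (χ t : ZMod p) *
      (((t⁻¹ : (ZMod m)ˣ) : ZMod m).val : ZMod p) ^ 3) ≠ 0)
    {X Y Z : 𝓞 K} (s : Sol p K X Y Z) :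
    (p : ℤ) ∣ Algebra.trace ℤ (𝓞 K) (X * σ Y) ^ 2 -
      4 * (Algebra.norm ℤ X * Algebra.norm ℤ Y) ∨
    (p : ℤ) ∣ 2 * (Algebra.norm ℤ X - Algebra.norm ℤ Y) ^ 2 -
      (Algebra.norm ℤ X + Algebra.norm ℤ Y) * Algebra.norm ℤ (X + Y) := by
  classical
  have hp2 : p ≠ 2 := by omega
  have hpf : Fact p.Prime := ⟨hp⟩
  have hm0 : m ≠ 0 := NeZero.ne m
  have hk0 : k ≠ 0 := by
    rintro rfl
    exact hk (dvd_zero _)
  have hodd : Odd p := hp.odd_of_ne_two hp2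
  have hσσ := conj_conj σ hT
  obtain ⟨hD0, g, hg, i, hi⟩ := relSol hU hA hp hp2 hm hk a ha ham c j s
  -- the map on integers
  obtain ⟨J, hJ⟩ : ∃ J : 𝓞 K →+* 𝓞 F, ∀ x : 𝓞 K, ((J x : 𝓞 F) : F) = j (x : K) :=
    ⟨RingOfIntegers.mapRingHom j, fun x => rfl⟩
  -- sums are not divisible by primes above `p`
  have hsumK : ∀ Q : Ideal (𝓞 K), Q.IsPrime → ((p : ℕ) : 𝓞 K) ∈ Q →
      X + Y ∉ Q ∧ σ X + σ Y ∉ Q := by
    have h1 : ∀ Q : Ideal (𝓞 K), Q.IsPrime → ((p : ℕ) : 𝓞 K) ∈ Q → X + Y ∉ Q := by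
      intro Q hQ hpQ h
      refine (s.cp Q hQ hpQ).2.2 (hQ.mem_of_pow_mem p ?_)
      have e : Z ^ p = -(X ^ p + Y ^ p) := by linear_combination s.eq
      rw [e]
      exact neg_mem (Ideal.mem_of_dvd Q (Odd.add_dvd_pow_add_pow _ _ hodd) h)
    intro Q hQ hpQ
    refine ⟨h1 Q hQ hpQ, fun h => ?_⟩
    refine h1 (Q.comap σ) (hQ.comap σ) ?_ ?_
    · rw [Ideal.mem_comap, map_natCast]
      exact hpQ
    · rw [Ideal.mem_comap, map_add]
      exact h
  -- the polynomial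
  obtain ⟨xt, hxt⟩ : ∃ xt : (ZMod m)ˣ → 𝓞 K, ∀ t, xt t = if χ t = 1 then X else σ X :=
    ⟨_, fun _ => rfl⟩
  obtain ⟨yt, hyt⟩ : ∃ yt : (ZMod m)ˣ → 𝓞 K, ∀ t, yt t = if χ t = 1 then Y else σ Y :=
    ⟨_, fun _ => rfl⟩
  obtain ⟨r, hr⟩ : ∃ r : (ZMod m)ˣ → ℕ, ∀ t, r t = ((t⁻¹ : (ZMod m)ˣ) : ZMod m).val :=
    ⟨_, fun _ => rfl⟩
  have hcomp : ∀ (t : (ZMod m)ˣ) (y : F), c.σ t⁻¹ (c.σ t y) = y := by
    intro t y
    have : (c.σ t⁻¹ * c.σ t) y = y := by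
      rw [← map_mul, inv_mul_cancel, map_one]
      rfl
    exact this
  have hinv : ∀ t : (ZMod m)ˣ, c.σ t⁻¹ (j (X : K)) = j (xt t : K) ∧
      c.σ t⁻¹ (j (Y : K)) = j (yt t : K) := by
    intro t
    rcases hj t with ⟨h1, h2⟩ | ⟨h1, h2⟩
    · have e : ∀ u : 𝓞 K, c.σ t⁻¹ (j (u : K)) = j (u : K) := by
        intro u
        have := hcomp t (j (u : K))
        rwa [h2] at this
      rw [hxt, hyt, if_pos h1, if_pos h1]
      exact ⟨e X, e Y⟩
    · have e : ∀ u : 𝓞 K, c.σ t⁻¹ (j (u : K)) = j ((σ u : 𝓞 K) : K) := by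
        intro u
        have := hcomp t (j ((σ u : 𝓞 K) : K))
        rwa [h2, hσσ] at this
      have h3 : ¬ χ t = 1 := by omega
      rw [hxt, hyt, if_neg h3, if_neg h3]
      exact ⟨e X, e Y⟩
  have hxyt : ∀ t, (xt t + yt t = X + Y ∨ xt t + yt t = σ X + σ Y) := by
    intro t
    rw [hxt, hyt]
    split_ifs
    · exact Or.inl rfl
    · exact Or.inr rfl
  have hσζ : ∀ t : (ZMod m)ˣ, c.σ t⁻¹ (c.z ^ k) = (c.z ^ k) ^ (r t) := by
    intro t
    rw [map_pow, c.σ_z, hr, ← pow_mul, ← pow_mul, mul_comm]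
  obtain ⟨Φ, hΦ⟩ : ∃ Φ : Polynomial (𝓞 K), Φ = ∏ t ∈ hfM m a, (Polynomial.C (xt t) +
      Polynomial.C (yt t) * Polynomial.X ^ (r t)) := ⟨_, rfl⟩
  have hev1 : Φ.eval 1 = ∏ t ∈ hfM m a, (xt t + yt t) := by
    rw [hΦ, Polynomial.eval_prod]
    refine Finset.prod_congr rfl fun t _ => ?_
    simp
  obtain ⟨D, hD⟩ : ∃ D : 𝓞 K, D = ∏ t ∈ hfM m a, (xt t + yt t) := ⟨_, rfl⟩
  have hjD : j (D : K) = ∏ t ∈ hfM m a, (j (xt t : K) + j (yt t : K)) := by
    rw [hD]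
    have h1 := map_prod (j.comp (algebraMap (𝓞 K) K)) (fun t => xt t + yt t) (hfM m a)
    refine h1.trans (Finset.prod_congr rfl fun t _ => ?_)
    rw [map_add]
    rfl
  have hevζ : evj j (c.z ^ k) Φ = ∏ t ∈ hfM m a, (j (xt t : K) + j (yt t : K) *
      (c.z ^ k) ^ (r t)) := by
    rw [hΦ]
    unfold evj
    rw [Polynomial.eval₂_finset_prod]
    refine Finset.prod_congr rfl fun t _ => ?_
    rw [Polynomial.eval₂_add, Polynomial.eval₂_mul, Polynomial.eval₂_C, Polynomial.eval₂_C,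
      Polynomial.eval₂_pow, Polynomial.eval₂_X]
    rfl
  have hth : thM c (hfM m a) ((j (X : K) + c.z ^ k * j (Y : K)) / (j (X : K) + j (Y : K))) *
      j (D : K) = evj j (c.z ^ k) Φ := by
    rw [hjD, hevζ]
    unfold thM
    rw [← Finset.prod_mul_distrib]
    refine Finset.prod_congr rfl fun t _ => ?_
    obtain ⟨e1, e2⟩ := hinv t
    have h1 : j (xt t : K) + j (yt t : K) ≠ 0 := by
      rw [← e1, ← e2, ← map_add, Ne, map_eq_zero]
      exact hD0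
    rw [map_div₀, map_add, map_add, map_mul, e1, e2, hσζ, div_mul_cancel₀ _ h1]
    ring
  rw [hi] at hth
  have hrel : evj j (c.z ^ k) Φ = j (D : K) * (c.z ^ k) ^ i * g ^ p := by
    rw [← hth]
    ring
  -- the inertia group fixes `K`
  have hfix : ∀ u : (ZMod m)ˣ, (u : ZMod m).val % k = 1 % k → ∀ x : K, c.σ u (j x) = j x := by
    intro u hu x
    have h1 := hχ u hu
    rcases hj u with ⟨-, h2⟩ | ⟨h2, -⟩
    · obtain ⟨a, b, hb, rfl⟩ := IsFractionRing.div_surjective (A := 𝓞 K) x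
      rw [map_div₀, map_div₀]
      have e1 := h2 a
      have e2 := h2 b
      exact congrArg₂ (· / ·) e1 e2
    · omega
  -- the sums
  obtain ⟨n1, hn1⟩ : ∃ n1 : ℕ, n1 = ∑ t ∈ (hfM m a).filter (fun t => χ t = 1), (r t) ^ 3 :=
    ⟨_, rfl⟩
  obtain ⟨n2, hn2⟩ : ∃ n2 : ℕ, n2 = ∑ t ∈ (hfM m a).filter (fun t => ¬ χ t = 1), (r t) ^ 3 :=
    ⟨_, rfl⟩
  have hnn : ¬ (p : ℤ) ∣ (n1 : ℤ) - n2 := by
    intro hd
    apply hne
    rw [← ZMod.intCast_zmod_eq_zero_iff_dvd] at hd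
    rw [← hd, ← Finset.sum_filter_add_sum_filter_not (hfM m a) (fun t => χ t = 1), hn1, hn2]
    push_cast
    rw [sub_eq_add_neg, ← Finset.sum_neg_distrib]
    congr 1
    · refine Finset.sum_congr rfl fun t ht => ?_
      rw [(Finset.mem_filter.1 ht).2, hr]
      simp
    · refine Finset.sum_congr rfl fun t ht => ?_
      have h1 := (Finset.mem_filter.1 ht).2
      rcases hj t with ⟨h2, -⟩ | ⟨h2, -⟩
      · exact absurd h2 h1
      · rw [h2, hr]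
        simp
  obtain ⟨E, hE⟩ : ∃ E : 𝓞 K, E = (n1 : 𝓞 K) * (X * Y * (X - Y) * (σ X + σ Y) ^ 3) +
    n2 * (σ X * σ Y * (σ X - σ Y) * (X + Y) ^ 3) := ⟨_, rfl⟩
  have hEv : ∀ P : HeightOneSpectrum (𝓞 F), ((p : ℕ) : 𝓞 F) ∈ P.asIdeal → J E ∈ P.asIdeal := by
    intro P hpP
    obtain ⟨q, hq⟩ : ∃ q : Ideal (𝓞 K), q = P.asIdeal.comap J := ⟨_, rfl⟩
    have hqp : q.IsPrime := by
      rw [hq]
      exact P.isPrime.comap J
    have hpq : ((p : ℕ) : 𝓞 K) ∈ q := by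
      rw [hq, Ideal.mem_comap, map_natCast]
      exact hpP
    have hqmem : ∀ a : 𝓞 K, a ∈ q ↔ P.valuation F (j (a : K)) < 1 := by
      intro a
      rw [hq, Ideal.mem_comap, ← hJ, val_lt_iff]
    have hval : ∀ a : 𝓞 K, a ∉ q → P.valuation F (j (a : K)) = 1 := by
      intro a ha
      refine le_antisymm ?_ (not_lt.1 fun h => ha ((hqmem a).2 h))
      rw [← hJ]
      exact P.valuation_le_one (J a)
    have hsum : ∀ t, xt t + yt t ∉ q := by
      intro t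
      rcases hxyt t with h | h
      · rw [h]
        exact (hsumK q hqp hpq).1
      · rw [h]
        exact (hsumK q hqp hpq).2
    have hDq : D ∉ q := by
      rw [hD]
      intro h
      obtain ⟨t, -, ht⟩ := (hqp.prod_mem_iff).1 h
      exact hsum t ht
    have hA1 := hRA m p k hp hp2 hm hk F c K j hfix Φ D i g hg hrel P hpP (hval D hDq)
      (by rw [hev1, ← hD]; exact hval D hDq)
    have hB1 := hRB m p k hp hp2 hm hk F c K j hunr Φ i P hpP hA1 q hqmem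
    -- the residue field
    have hq0 : q ≠ ⊥ := by
      rintro h
      rw [h, Ideal.mem_bot] at hpq
      exact hp.ne_zero (by exact_mod_cast hpq)
    have hqm : q.IsMaximal := hqp.isMaximal hq0
    letI : Field (𝓞 K ⧸ q) := Ideal.Quotient.field q
    have hchar : CharP (𝓞 K ⧸ q) p := by
      rw [CharP.charP_iff_prime_eq_zero hp]
      have h1 : Ideal.Quotient.mk q ((p : ℕ) : 𝓞 K) = 0 := Ideal.Quotient.eq_zero_iff_mem.2 hpq
      rw [map_natCast] at h1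
      exact h1
    have hmkne : ∀ a : 𝓞 K, a ∉ q → Ideal.Quotient.mk q a ≠ 0 := fun a ha h =>
      ha (Ideal.Quotient.eq_zero_iff_mem.1 h)
    have hB2 : (Polynomial.X - 1) ^ (p - 1) ∣ (∏ t ∈ hfM m a,
        (Polynomial.C (Ideal.Quotient.mk q (xt t)) + Polynomial.C (Ideal.Quotient.mk q (yt t)) *
          Polynomial.X ^ (r t))) - Polynomial.C (Ideal.Quotient.mk q (Φ.eval 1)) *
          Polynomial.X ^ i := by
      have e : Φ.map (Ideal.Quotient.mk q) = ∏ t ∈ hfM m a,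
        (Polynomial.C (Ideal.Quotient.mk q (xt t)) + Polynomial.C (Ideal.Quotient.mk q (yt t)) *
          Polynomial.X ^ (r t)) := by
        rw [hΦ, Polynomial.map_prod]
        refine Finset.prod_congr rfl fun t _ => ?_
        simp
      rw [← e]
      exact hB1
    have hJ1 := hJ3 (𝓞 K ⧸ q) p hp h5 (ZMod m)ˣ (hfM m a) (fun t => Ideal.Quotient.mk q (xt t))
      (fun t => Ideal.Quotient.mk q (yt t)) r (Ideal.Quotient.mk q (Φ.eval 1)) i
      (hmkne _ (by rw [hev1, ← hD]; exact hDq)) hB2 (fun t _ => by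
        rw [← map_add]
        exact hmkne _ (hsum t))
    obtain ⟨u, hu⟩ : ∃ u, u = Ideal.Quotient.mk q X := ⟨_, rfl⟩
    obtain ⟨v, hv⟩ : ∃ v, v = Ideal.Quotient.mk q Y := ⟨_, rfl⟩
    obtain ⟨u', hu'⟩ : ∃ u', u' = Ideal.Quotient.mk q (σ X) := ⟨_, rfl⟩
    obtain ⟨v', hv'⟩ : ∃ v', v' = Ideal.Quotient.mk q (σ Y) := ⟨_, rfl⟩
    have huv : u + v ≠ 0 := by
      rw [hu, hv, ← map_add]
      exact hmkne _ (hsumK q hqp hpq).1
    have huv' : u' + v' ≠ 0 := by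
      rw [hu', hv', ← map_add]
      exact hmkne _ (hsumK q hqp hpq).2
    have hS : (n1 : 𝓞 K ⧸ q) * (u * v * (u - v) / (u + v) ^ 3) +
        n2 * (u' * v' * (u' - v') / (u' + v') ^ 3) = 0 := by
      rw [← hJ1, ← Finset.sum_filter_add_sum_filter_not (hfM m a) (fun t => χ t = 1), hn1, hn2]
      push_cast
      rw [Finset.sum_mul, Finset.sum_mul]
      congr 1
      · refine Finset.sum_congr rfl fun t ht => ?_
        have h1 := (Finset.mem_filter.1 ht).2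
        simp only [hxt, hyt, if_pos h1, ← hu, ← hv]
      · refine Finset.sum_congr rfl fun t ht => ?_
        have h1 := (Finset.mem_filter.1 ht).2
        simp only [hxt, hyt, if_neg h1, ← hu', ← hv']
    have hEq : Ideal.Quotient.mk q E = 0 := by
      rw [hE]
      simp only [map_add, map_mul, map_natCast, map_sub, map_pow, ← hu, ← hv, ← hu', ← hv']
      have h1 : (n1 : 𝓞 K ⧸ q) * (u * v * (u - v) * (u' + v') ^ 3) +
          n2 * (u' * v' * (u' - v') * (u + v) ^ 3) = ((u + v) ^ 3 * (u' + v') ^ 3) *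
          ((n1 : 𝓞 K ⧸ q) * (u * v * (u - v) / (u + v) ^ 3) +
            n2 * (u' * v' * (u' - v') / (u' + v') ^ 3)) := by
        field_simp
      rw [h1, hS, mul_zero]
    have h3 : E ∈ q := Ideal.Quotient.eq_zero_iff_mem.1 hEq
    rw [hq, Ideal.mem_comap] at h3
    exact h3
  -- the conjugate element
  obtain ⟨M, hM, hpM⟩ := exists_above (K := F) p hp
  have hM0 : M ≠ ⊥ := by
    rintro rfl
    rw [Ideal.mem_bot] at hpM
    exact hp.ne_zero (by exact_mod_cast hpM)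
  have hE' : J (σ E) ∈ M := by
    obtain ⟨P', hP'⟩ : ∃ P' : HeightOneSpectrum (𝓞 F), P'.asIdeal = M.comap
        (rsM c t₀ : 𝓞 F →+* 𝓞 F) := ⟨actM c t₀ ⟨M, hM, hM0⟩, rfl⟩
    have h1 : J E ∈ P'.asIdeal := by
      apply hEv
      rw [hP', Ideal.mem_comap, map_natCast]
      exact hpM
    rw [hP', Ideal.mem_comap] at h1
    have h2 : (rsM c t₀ : 𝓞 F →+* 𝓞 F) (J E) = J (σ E) := by
      apply RingOfIntegers.coe_injective
      have e1 : algebraMap (𝓞 F) F ((rsM c t₀ : 𝓞 F →+* 𝓞 F) (J E)) = c.σ t₀ (j (E : K)) := by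
        rw [← hJ]
        rfl
      have e2 : algebraMap (𝓞 F) F (J (σ E)) = j ((σ E : 𝓞 K) : K) := hJ _
      rw [e1, e2]
      rcases hj t₀ with ⟨h1, -⟩ | ⟨-, h2⟩
      · omega
      · exact h2 E
    rwa [h2] at h1
  have hEM : J E ∈ M := hEv ⟨M, hM, hM0⟩ hpM
  have hdiff : E - σ E = ((n1 : ℤ) - n2 : ℤ) * ((Y * σ X - X * σ Y) *
      ((2 * (Algebra.norm ℤ X - Algebra.norm ℤ Y) ^ 2 -
      (Algebra.norm ℤ X + Algebra.norm ℤ Y) * Algebra.norm ℤ (X + Y) : ℤ) : 𝓞 K)) := by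
    rw [hE]
    push_cast
    rw [hN, hN, hN]
    simp only [map_sub, map_add, map_mul, map_natCast, map_pow, hσσ]
    ring
  have hmem : J (Y * σ X - X * σ Y) * J ((2 * (Algebra.norm ℤ X - Algebra.norm ℤ Y) ^ 2 -
      (Algebra.norm ℤ X + Algebra.norm ℤ Y) * Algebra.norm ℤ (X + Y) : ℤ) : 𝓞 K) ∈ M := by
    have h1 : J (E - σ E) ∈ M := by
      rw [map_sub]
      exact M.sub_mem hEM hE'
    rw [hdiff, map_mul, map_intCast, map_mul] at h1
    exact (hM.mem_or_mem h1).resolve_left (int_notMem M hM p hp hpM _ hnn)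
  rcases hM.mem_or_mem hmem with hmem | hmem
  · left
    by_contra hcon
    refine int_notMem M hM p hp hpM _ hcon ?_
    have h2 : ((Algebra.trace ℤ (𝓞 K) (X * σ Y) ^ 2 -
        4 * (Algebra.norm ℤ X * Algebra.norm ℤ Y) : ℤ) : 𝓞 K) =
        (Y * σ X - X * σ Y) * (Y * σ X - X * σ Y) := by
      push_cast
      rw [hT, hN, hN, map_mul, hσσ]
      ring
    have h3 := congrArg J h2
    rw [map_intCast] at h3
    rw [h3, map_mul]
    exact M.mul_mem_right _ hmem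
  · right
    by_contra hcon
    rw [map_intCast] at hmem
    exact int_notMem M hM p hp hpM _ hcon hmem

end

end Pool.Agent.K3h44.RQ
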