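import Pool.Agent.K3h44.RQ.Stm3

/-!
# Project RQ, fourth part: all coefficients of the logarithmic derivative: statements
-/

set_option autoImplicit false

namespace Pool.Agent.K3h44.RQ

open Polynomial

/-- the exponential series, with `0` instead of the inverses of multiples of the characteristic -/
noncomputable def exq (κ : Type) [Field κ] : PowerSeries κ :=
  PowerSeries.mk fun k => ((k.factorial : ℕ) : κ)⁻¹

/-- the logarithmic derivative `y T / (x + y T)` of `x + y T` at `T = exp u` -/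
noncomputable def cumq {κ : Type} [Field κ] (x y : κ) : PowerSeries κ :=
  PowerSeries.C y * exq κ * (PowerSeries.C x + PowerSeries.C y * exq κ)⁻¹

/-- the quotient `T / (A + t T + B T ^ 2)` at `T = exp u` -/
noncomputable def quoq {κ : Type} [Field κ] (A t B : κ) : PowerSeries κ :=
  exq κ * (PowerSeries.C A + PowerSeries.C t * exq κ + PowerSeries.C B * exq κ ^ 2)⁻¹

/-- CJ: the coefficients of the logarithmic derivative of a product of linear polynomials in powers
of the variable -/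
def S_CJ : Prop := ∀ (κ : Type) [Field κ] (p : ℕ) [CharP κ p], p.Prime → 5 ≤ p →
  ∀ (ι : Type) (H : Finset ι) (x y : ι → κ) (r : ι → ℕ) (ρ : κ) (i : ℕ), ρ ≠ 0 →
  (X - 1) ^ (p - 1) ∣ (∏ t ∈ H, (C (x t) + C (y t) * X ^ (r t))) - C ρ * X ^ i →
  (∀ t ∈ H, x t + y t ≠ 0) → ∀ j : ℕ, 1 ≤ j → j + 2 ≤ p →
  ∑ t ∈ H, (r t : κ) ^ j * PowerSeries.coeff (j - 1) (cumq (x t) (y t)) =
    if j = 1 then (i : κ) else 0

/-- LINQ: the difference of two logarithmic derivatives is defined over the prime field up to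
a factor -/
def S_LINQ : Prop := ∀ (p : ℕ) [Fact p.Prime] (κ : Type) [Field κ] [CharP κ p] (x y x' y' : κ)
  (A t B : ZMod p), ZMod.castHom (dvd_refl p) κ A = x * x' →
  ZMod.castHom (dvd_refl p) κ t = x * y' + x' * y → ZMod.castHom (dvd_refl p) κ B = y * y' →
  x + y ≠ 0 → x' + y' ≠ 0 → x * y' ≠ x' * y → ∀ j : ℕ,
  PowerSeries.coeff j (cumq x y) = PowerSeries.coeff j (cumq x' y') →
  PowerSeries.coeff j (quoq A t B) = 0

/-- LINE: not many of the even coefficients of `T / (A + t T + B T ^ 2)` are zero -/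
def S_LINE : Prop := ∀ (p : ℕ) [Fact p.Prime] (A t B : ZMod p) (J : Finset ℕ), 5 ≤ p → A ≠ 0 →
  B ≠ 0 → A + t + B ≠ 0 → (∀ j, Odd j → j + 2 ≤ p → j ∉ J →
    PowerSeries.coeff (j - 1) (quoq A t B) = 0) → 2 * ((J.card + 1) * (J.card + 2)) + 3 ≤ p → False

end Pool.Agent.K3h44.RQ
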