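import Pool.Agent.K3h44.RQ.AsmB
import Pool.Agent.K3h44.RQ.Stm4

/-!
# Project RQ, fourth part: the relations of all orders
-/

set_option autoImplicit false

namespace Pool.Agent.K3h44.RQ

open NumberField IsDedekindDomain Pool.Agent.Y546.WQ
open WithZero (exp)

section

variable {K : Type} [Field K] [NumberField K]

/-- the sum of the powers of the inverses over the `t` with `χ(t) = 1` -/
noncomputable def sP {m : ℕ} [NeZero m] (a : ℕ) (χ : (ZMod m)ˣ → ℤ) (l : ℕ) : ℕ := by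
  classical
  exact ∑ t ∈ (hfM m a).filter (fun t => χ t = 1), (((t⁻¹ : (ZMod m)ˣ) : ZMod m).val) ^ l

/-- the sum of the powers of the inverses over the `t` with `χ(t) = - 1` -/
noncomputable def sM {m : ℕ} [NeZero m] (a : ℕ) (χ : (ZMod m)ˣ → ℤ) (l : ℕ) : ℕ := by
  classical
  exact ∑ t ∈ (hfM m a).filter (fun t => ¬ χ t = 1), (((t⁻¹ : (ZMod m)ˣ) : ZMod m).val) ^ l

/-- the relations of all orders -/
theorem relCum (hU : S_UNITM) (hA : S_APPR) (hRA : S_RELA) (hRB : S_RELB) (hCJ : S_CJ) {m : ℕ}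
    [NeZero m] {F : Type} [Field F] [NumberField F] {p k : ℕ} (hp : p.Prime) (h5 : 5 ≤ p)
    (hm : m = p * k) (hk : ¬ p ∣ k)
    (a : ℕ) (ha : 0 < a) (ham : a + 2 ≤ m) (c : CycM m F) (σ : 𝓞 K →+* 𝓞 K)
    (hT : ∀ a : 𝓞 K, ((Algebra.trace ℤ (𝓞 K) a : ℤ) : 𝓞 K) = a + σ a)
    (j : K →+* F) (χ : (ZMod m)ˣ → ℤ)
    (hj : ∀ t : (ZMod m)ˣ, (χ t = 1 ∧ ∀ x : 𝓞 K, c.σ t (j x) = j x) ∨
      (χ t = -1 ∧ ∀ x : 𝓞 K, c.σ t (j x) = j (σ x)))
    (hχ : ∀ u : (ZMod m)ˣ, (u : ZMod m).val % k = 1 % k → χ u = 1)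
    (hunr : ∀ Q : Ideal (𝓞 K), ((p : ℕ) : 𝓞 K) ∈ Q ^ 2 → Q = ⊤)
    {X Y Z : 𝓞 K} (s : Sol p K X Y Z) : ∃ i : ℕ, ∀ P : HeightOneSpectrum (𝓞 F),
    ((p : ℕ) : 𝓞 F) ∈ P.asIdeal → ∀ (κ : Type) [Field κ] [CharP κ p] (π : 𝓞 K →+* κ),
    (∀ a : 𝓞 K, π a = 0 ↔ P.valuation F (j (a : K)) < 1) → ∀ l : ℕ, 1 ≤ l → l + 2 ≤ p →
    (sP a χ l : κ) * PowerSeries.coeff (l - 1) (cumq (π X) (π Y)) +
      (sM a χ l : κ) * PowerSeries.coeff (l - 1) (cumq (π (σ X)) (π (σ Y))) =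
      if l = 1 then (i : κ) else 0 := by
  classical
  have hp2 : p ≠ 2 := by omega
  have hpf : Fact p.Prime := ⟨hp⟩
  have hm0 : m ≠ 0 := NeZero.ne m
  have hk0 : k ≠ 0 := by
    rintro rfl
    exact hk (dvd_zero _)
  have hodd : Odd p := hp.odd_of_ne_two hp2
  have hσσ := conj_conj σ hT
  obtain ⟨hD0, g, hg, i, hi⟩ := relSol hU hA hp hp2 hm hk a ha ham c j s
  -- the map on integers
  obtain ⟨J, hJ⟩ : ∃ J : 𝓞 K →+* 𝓞 F, ∀ x : 𝓞 K, ((J x : 𝓞 F) : F) = j (x : K) :=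
    ⟨RingOfIntegers.mapRingHom j, fun x => rfl⟩
  -- sums are not divisible by primes above `p`
  have hsumK : ∀ Q : Ideal (𝓞 K), Q.IsPrime → ((p : ℕ) : 𝓞 K) ∈ Q →
      X + Y ∉ Q ∧ σ X + σ Y ∉ Q := by
    have h1 : ∀ Q : Ideal (𝓞 K), Q.IsPrime → ((p : ℕ) : 𝓞 K) ∈ Q → X + Y ∉ Q := by
      intro Q hQ hpQ h
      refine (s.cp Q hQ hpQ).2.2 (hQ.mem_of_pow_mem p ?_)
      have e : Z ^ p = -(X ^ p + Y ^ p) := by linear_combination s.eq
      rw [e]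
      exact neg_mem (Ideal.mem_of_dvd Q (Odd.add_dvd_pow_add_pow _ _ hodd) h)
    intro Q hQ hpQ
    refine ⟨h1 Q hQ hpQ, fun h => ?_⟩
    refine h1 (Q.comap σ) (hQ.comap σ) ?_ ?_
    · rw [Ideal.mem_comap, map_natCast]
      exact hpQ
    · rw [Ideal.mem_comap, map_add]
      exact h
  -- the polynomial
  obtain ⟨xt, hxt⟩ : ∃ xt : (ZMod m)ˣ → 𝓞 K, ∀ t, xt t = if χ t = 1 then X else σ X :=
    ⟨_, fun _ => rfl⟩
  obtain ⟨yt, hyt⟩ : ∃ yt : (ZMod m)ˣ → 𝓞 K, ∀ t, yt t = if χ t = 1 then Y else σ Y :=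
    ⟨_, fun _ => rfl⟩
  obtain ⟨r, hr⟩ : ∃ r : (ZMod m)ˣ → ℕ, ∀ t, r t = ((t⁻¹ : (ZMod m)ˣ) : ZMod m).val :=
    ⟨_, fun _ => rfl⟩
  have hcomp : ∀ (t : (ZMod m)ˣ) (y : F), c.σ t⁻¹ (c.σ t y) = y := by
    intro t y
    have : (c.σ t⁻¹ * c.σ t) y = y := by
      rw [← map_mul, inv_mul_cancel, map_one]
      rfl
    exact this
  have hinv : ∀ t : (ZMod m)ˣ, c.σ t⁻¹ (j (X : K)) = j (xt t : K) ∧
      c.σ t⁻¹ (j (Y : K)) = j (yt t : K) := by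
    intro t
    rcases hj t with ⟨h1, h2⟩ | ⟨h1, h2⟩
    · have e : ∀ u : 𝓞 K, c.σ t⁻¹ (j (u : K)) = j (u : K) := by
        intro u
        have := hcomp t (j (u : K))
        rwa [h2] at this
      rw [hxt, hyt, if_pos h1, if_pos h1]
      exact ⟨e X, e Y⟩
    · have e : ∀ u : 𝓞 K, c.σ t⁻¹ (j (u : K)) = j ((σ u : 𝓞 K) : K) := by
        intro u
        have := hcomp t (j ((σ u : 𝓞 K) : K))
        rwa [h2, hσσ] at this
      have h3 : ¬ χ t = 1 := by omega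
      rw [hxt, hyt, if_neg h3, if_neg h3]
      exact ⟨e X, e Y⟩
  have hxyt : ∀ t, (xt t + yt t = X + Y ∨ xt t + yt t = σ X + σ Y) := by
    intro t
    rw [hxt, hyt]
    split_ifs
    · exact Or.inl rfl
    · exact Or.inr rfl
  have hσζ : ∀ t : (ZMod m)ˣ, c.σ t⁻¹ (c.z ^ k) = (c.z ^ k) ^ (r t) := by
    intro t
    rw [map_pow, c.σ_z, hr, ← pow_mul, ← pow_mul, mul_comm]
  obtain ⟨Φ, hΦ⟩ : ∃ Φ : Polynomial (𝓞 K), Φ = ∏ t ∈ hfM m a, (Polynomial.C (xt t) +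
      Polynomial.C (yt t) * Polynomial.X ^ (r t)) := ⟨_, rfl⟩
  have hev1 : Φ.eval 1 = ∏ t ∈ hfM m a, (xt t + yt t) := by
    rw [hΦ, Polynomial.eval_prod]
    refine Finset.prod_congr rfl fun t _ => ?_
    simp
  obtain ⟨D, hD⟩ : ∃ D : 𝓞 K, D = ∏ t ∈ hfM m a, (xt t + yt t) := ⟨_, rfl⟩
  have hjD : j (D : K) = ∏ t ∈ hfM m a, (j (xt t : K) + j (yt t : K)) := by
    rw [hD]
    have h1 := map_prod (j.comp (algebraMap (𝓞 K) K)) (fun t => xt t + yt t) (hfM m a)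
    refine h1.trans (Finset.prod_congr rfl fun t _ => ?_)
    rw [map_add]
    rfl
  have hevζ : evj j (c.z ^ k) Φ = ∏ t ∈ hfM m a, (j (xt t : K) + j (yt t : K) *
      (c.z ^ k) ^ (r t)) := by
    rw [hΦ]
    unfold evj
    rw [Polynomial.eval₂_finset_prod]
    refine Finset.prod_congr rfl fun t _ => ?_
    rw [Polynomial.eval₂_add, Polynomial.eval₂_mul, Polynomial.eval₂_C, Polynomial.eval₂_C,
      Polynomial.eval₂_pow, Polynomial.eval₂_X]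
    rfl
  have hth : thM c (hfM m a) ((j (X : K) + c.z ^ k * j (Y : K)) / (j (X : K) + j (Y : K))) *
      j (D : K) = evj j (c.z ^ k) Φ := by
    rw [hjD, hevζ]
    unfold thM
    rw [← Finset.prod_mul_distrib]
    refine Finset.prod_congr rfl fun t _ => ?_
    obtain ⟨e1, e2⟩ := hinv t
    have h1 : j (xt t : K) + j (yt t : K) ≠ 0 := by
      rw [← e1, ← e2, ← map_add, Ne, map_eq_zero]
      exact hD0
    rw [map_div₀, map_add, map_add, map_mul, e1, e2, hσζ, div_mul_cancel₀ _ h1]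
    ring
  rw [hi] at hth
  have hrel : evj j (c.z ^ k) Φ = j (D : K) * (c.z ^ k) ^ i * g ^ p := by
    rw [← hth]
    ring
  -- the inertia group fixes `K`
  have hfix : ∀ u : (ZMod m)ˣ, (u : ZMod m).val % k = 1 % k → ∀ x : K, c.σ u (j x) = j x := by
    intro u hu x
    have h1 := hχ u hu
    rcases hj u with ⟨-, h2⟩ | ⟨h2, -⟩
    · obtain ⟨a, b, hb, rfl⟩ := IsFractionRing.div_surjective (A := 𝓞 K) x
      rw [map_div₀, map_div₀]
      have e1 := h2 a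
      have e2 := h2 b
      exact congrArg₂ (· / ·) e1 e2
    · omega
  refine ⟨i, ?_⟩
  intro P hpP κ _ _ π hπ l hl1 hlp
  obtain ⟨q, hq⟩ : ∃ q : Ideal (𝓞 K), q = RingHom.ker π := ⟨_, rfl⟩
  have hqmem : ∀ a : 𝓞 K, a ∈ q ↔ P.valuation F (j (a : K)) < 1 := by
    intro a
    rw [hq, RingHom.mem_ker, hπ]
  have hqp : q.IsPrime := by
    rw [hq]
    exact RingHom.ker_isPrime π
  have hpq : ((p : ℕ) : 𝓞 K) ∈ q := by
    rw [hq, RingHom.mem_ker, map_natCast, CharP.cast_eq_zero]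
  have hval : ∀ a : 𝓞 K, a ∉ q → P.valuation F (j (a : K)) = 1 := by
    intro a ha
    refine le_antisymm ?_ (not_lt.1 fun h => ha ((hqmem a).2 h))
    rw [← hJ]
    exact P.valuation_le_one (J a)
  have hsum : ∀ t, xt t + yt t ∉ q := by
    intro t
    rcases hxyt t with h | h
    · rw [h]
      exact (hsumK q hqp hpq).1
    · rw [h]
      exact (hsumK q hqp hpq).2
  have hDq : D ∉ q := by
    rw [hD]
    intro h
    obtain ⟨t, -, ht⟩ := (hqp.prod_mem_iff).1 h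
    exact hsum t ht
  have hA1 := hRA m p k hp hp2 hm hk F c K j hfix Φ D i g hg hrel P hpP (hval D hDq)
    (by rw [hev1, ← hD]; exact hval D hDq)
  have hB1 := hRB m p k hp hp2 hm hk F c K j hunr Φ i P hpP hA1 q hqmem
  have hπne : ∀ a : 𝓞 K, a ∉ q → π a ≠ 0 := fun a ha h =>
    ha (by rw [hq, RingHom.mem_ker]; exact h)
  -- map to `κ`
  obtain ⟨ψ, hψ⟩ : ∃ ψ : 𝓞 K ⧸ q →+* κ, ∀ a, ψ (Ideal.Quotient.mk q a) = π a := by
    subst hq
    exact ⟨RingHom.kerLift π, fun a => RingHom.kerLift_mk π a⟩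
  have hψc : ψ.comp (Ideal.Quotient.mk q) = π := RingHom.ext hψ
  have hB2 : (Polynomial.X - 1) ^ (p - 1) ∣ (∏ t ∈ hfM m a,
      (Polynomial.C (π (xt t)) + Polynomial.C (π (yt t)) *
        Polynomial.X ^ (r t))) - Polynomial.C (π (Φ.eval 1)) * Polynomial.X ^ i := by
    have h1 := Polynomial.map_dvd ψ hB1
    rw [Polynomial.map_sub, Polynomial.map_map, hψc, Polynomial.map_mul, Polynomial.map_C, hψ,
      Polynomial.map_pow, Polynomial.map_pow, Polynomial.map_sub, Polynomial.map_X,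
      Polynomial.map_one] at h1
    have e : Φ.map π = ∏ t ∈ hfM m a, (Polynomial.C (π (xt t)) + Polynomial.C (π (yt t)) *
        Polynomial.X ^ (r t)) := by
      rw [hΦ, Polynomial.map_prod]
      refine Finset.prod_congr rfl fun t _ => ?_
      simp
    rw [← e]
    exact h1
  have hJ1 := hCJ κ p hp h5 (ZMod m)ˣ (hfM m a) (fun t => π (xt t)) (fun t => π (yt t)) r
    (π (Φ.eval 1)) i (hπne _ (by rw [hev1, ← hD]; exact hDq)) hB2 (fun t _ => by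
      rw [← map_add]
      exact hπne _ (hsum t)) l hl1 hlp
  rw [← hJ1, ← Finset.sum_filter_add_sum_filter_not (hfM m a) (fun t => χ t = 1), sP, sM]
  push_cast
  rw [Finset.sum_mul, Finset.sum_mul]
  congr 1
  · refine Finset.sum_congr (by ext; simp) fun t ht => ?_
    have h1 := (Finset.mem_filter.1 ht).2
    simp only [hxt, hyt, hr, if_pos h1]
  · refine Finset.sum_congr (by ext; simp) fun t ht => ?_
    have h1 := (Finset.mem_filter.1 ht).2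
    simp only [hxt, hyt, hr, if_neg h1]

/-- the logarithmic derivatives of `X + T Y` and its conjugate have the same coefficient -/
theorem cumEq (hU : S_UNITM) (hA : S_APPR) (hRA : S_RELA) (hRB : S_RELB) (hCJ : S_CJ) {m : ℕ}
    [NeZero m] {F : Type} [Field F] [NumberField F] {p k : ℕ} (hp : p.Prime) (h5 : 5 ≤ p)
    (hm : m = p * k) (hk : ¬ p ∣ k)
    (a : ℕ) (ha : 0 < a) (ham : a + 2 ≤ m) (c : CycM m F) (σ : 𝓞 K →+* 𝓞 K)
    (hT : ∀ a : 𝓞 K, ((Algebra.trace ℤ (𝓞 K) a : ℤ) : 𝓞 K) = a + σ a)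
    (j : K →+* F) (χ : (ZMod m)ˣ → ℤ)
    (hj : ∀ t : (ZMod m)ˣ, (χ t = 1 ∧ ∀ x : 𝓞 K, c.σ t (j x) = j x) ∨
      (χ t = -1 ∧ ∀ x : 𝓞 K, c.σ t (j x) = j (σ x)))
    (hχ : ∀ u : (ZMod m)ˣ, (u : ZMod m).val % k = 1 % k → χ u = 1)
    (hunr : ∀ Q : Ideal (𝓞 K), ((p : ℕ) : 𝓞 K) ∈ Q ^ 2 → Q = ⊤)
    (t₀ : (ZMod m)ˣ) (ht₀ : χ t₀ = -1) {X Y Z : 𝓞 K} (s : Sol p K X Y Z)
    (P : HeightOneSpectrum (𝓞 F)) (hpP : ((p : ℕ) : 𝓞 F) ∈ P.asIdeal)
    (κ : Type) [Field κ] [CharP κ p] (π : 𝓞 K →+* κ)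
    (hπ : ∀ a : 𝓞 K, π a = 0 ↔ P.valuation F (j (a : K)) < 1) (l : ℕ) (hl1 : 1 ≤ l)
    (hlp : l + 2 ≤ p)
    (hne : (∑ t ∈ hfM m a, (χ t : ZMod p) *
      (((t⁻¹ : (ZMod m)ˣ) : ZMod m).val : ZMod p) ^ l) ≠ 0) :
    PowerSeries.coeff (l - 1) (cumq (π X) (π Y)) =
      PowerSeries.coeff (l - 1) (cumq (π (σ X)) (π (σ Y))) := by
  classical
  have hσσ := conj_conj σ hT
  obtain ⟨i, hi⟩ := relCum hU hA hRA hRB hCJ hp h5 hm hk a ha ham c σ hT j χ hj hχ hunr s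
  have h1 := hi P hpP κ π hπ l hl1 hlp
  -- the map on integers
  obtain ⟨J, hJ⟩ : ∃ J : 𝓞 K →+* 𝓞 F, ∀ x : 𝓞 K, ((J x : 𝓞 F) : F) = j (x : K) :=
    ⟨RingOfIntegers.mapRingHom j, fun x => rfl⟩
  obtain ⟨P', hP'⟩ : ∃ P' : HeightOneSpectrum (𝓞 F), P'.asIdeal = P.asIdeal.comap
      (rsM c t₀ : 𝓞 F →+* 𝓞 F) := ⟨actM c t₀ P, rfl⟩
  have hpP' : ((p : ℕ) : 𝓞 F) ∈ P'.asIdeal := by
    rw [hP', Ideal.mem_comap, map_natCast]
    exact hpP
  have hπ' : ∀ a : 𝓞 K, (π.comp σ) a = 0 ↔ P'.valuation F (j (a : K)) < 1 := by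
    intro a
    have e3 : (rsM c t₀ : 𝓞 F →+* 𝓞 F) (J a) = J (σ a) := by
      apply RingOfIntegers.coe_injective
      have e1 : algebraMap (𝓞 F) F ((rsM c t₀ : 𝓞 F →+* 𝓞 F) (J a)) = c.σ t₀ (j (a : K)) := by
        rw [← hJ]
        rfl
      have e2 : algebraMap (𝓞 F) F (J (σ a)) = j ((σ a : 𝓞 K) : K) := hJ _
      rw [e1, e2]
      rcases hj t₀ with ⟨h1, -⟩ | ⟨-, h2⟩
      · omega
      · exact h2 a
    rw [RingHom.comp_apply, hπ, ← hJ, ← hJ, val_lt_iff, val_lt_iff, hP', Ideal.mem_comap, e3]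
  have h2 := hi P' hpP' κ (π.comp σ) hπ' l hl1 hlp
  simp only [RingHom.comp_apply, hσσ] at h2
  have hnn : ¬ (p : ℤ) ∣ (sP a χ l : ℤ) - sM a χ l := by
    intro hd
    apply hne
    rw [← ZMod.intCast_zmod_eq_zero_iff_dvd] at hd
    rw [← hd, ← Finset.sum_filter_add_sum_filter_not (hfM m a) (fun t => χ t = 1), sP, sM]
    push_cast
    rw [sub_eq_add_neg, ← Finset.sum_neg_distrib]
    congr 1
    · refine Finset.sum_congr (by ext; simp) fun t ht => ?_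
      rw [(Finset.mem_filter.1 ht).2]
      simp
    · refine Finset.sum_congr (by ext; simp) fun t ht => ?_
      have h1 := (Finset.mem_filter.1 ht).2
      rcases hj t with ⟨h2, -⟩ | ⟨h2, -⟩
      · exact absurd h2 h1
      · rw [h2]
        simp
  have h3 : ((sP a χ l : κ) - sM a χ l) ≠ 0 := by
    intro h0
    apply hnn
    rw [← CharP.intCast_eq_zero_iff κ p]
    push_cast
    exact h0
  have h4 : ((sP a χ l : κ) - sM a χ l) * (PowerSeries.coeff (l - 1) (cumq (π X) (π Y)) -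
      PowerSeries.coeff (l - 1) (cumq (π (σ X)) (π (σ Y)))) = 0 := by
    linear_combination h1 - h2
  exact sub_eq_zero.1 ((mul_eq_zero.1 h4).resolve_left h3)

end

end Pool.Agent.K3h44.RQ
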