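import Pool.Agent.K3h44.RQ.Top2
import Pool.Agent.K3h60.RQ.CYX
import Pool.Agent.K3h92.RQ.UNR

/-!
# Project RQ: the first case over real quadratic fields
-/

set_option autoImplicit false

namespace Pool.Agent.K3h44.RQ

open NumberField IsDedekindDomain Pool.Agent.Y546.WQ

section

variable {K : Type} [Field K] [NumberField K]

/-- the first case from the congruence for the norms -/
theorem firstOf {p n : ℕ} (hp : p.Prime) (h7 : 7 ≤ p) (hK : Module.finrank ℚ K = 2)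
    (hdiv : ∀ σ : 𝓞 K →+* 𝓞 K, (∀ a : 𝓞 K, ((Algebra.norm ℤ a : ℤ) : 𝓞 K) = a * σ a) →
      (∀ a : 𝓞 K, ((Algebra.trace ℤ (𝓞 K) a : ℤ) : 𝓞 K) = a + σ a) → Div p K σ)
    (hcond : ¬ p ^ 2 ∣ 2 ^ (p - 1) - 1 ∨ p - 3 ∉ irr p ∨
      ((irr p).card + 1) * ((irr p).card + 2) + 3 ≤ p) (hn : p ∣ n)
    {x y z : K} (hx : x ≠ 0) (hy : y ≠ 0) (hz : z ≠ 0) (h : x ^ n + y ^ n = z ^ n)
    (hv : ∀ v : HeightOneSpectrum (𝓞 K), ((p : ℕ) : 𝓞 K) ∈ v.asIdeal →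
      v.valuation K x = v.valuation K y ∧ v.valuation K y = v.valuation K z) : False := by
  obtain ⟨k, rfl⟩ := hn
  obtain ⟨σ, hN, hT⟩ := Y546.SG.exists_conj hK
  have hD := hdiv σ hN hT
  have hodd : Odd p := hp.odd_of_ne_two (by omega)
  have h1 : (x ^ k) ^ p + (y ^ k) ^ p + (-z ^ k) ^ p = 0 := by
    rw [hodd.neg_pow, ← pow_mul, ← pow_mul, ← pow_mul, mul_comm k p, h]
    ring
  have hv' : ∀ v : HeightOneSpectrum (𝓞 K), ((p : ℕ) : 𝓞 K) ∈ v.asIdeal →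
      v.valuation K (x ^ k) = v.valuation K (y ^ k) ∧
        v.valuation K (y ^ k) = v.valuation K (-z ^ k) := by
    intro v hpv
    obtain ⟨h2, h3⟩ := hv v hpv
    rw [Valuation.map_neg, map_pow, map_pow, map_pow, h2, h3]
    exact ⟨rfl, rfl⟩
  rcases hcond with hc | hc
  · exact fin2 hp h7 hc hK σ hN hT hD (pow_ne_zero _ hx) (pow_ne_zero _ hy)
      (neg_ne_zero.2 (pow_ne_zero _ hz)) h1 hv'
  · exact finB K3h67.RQ.t_SQR hp h7 hc hK σ hN hT hD (pow_ne_zero _ hx) (pow_ne_zero _ hy)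
      (neg_ne_zero.2 (pow_ne_zero _ hz)) h1 hv'

end

end Pool.Agent.K3h44.RQ
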