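import Pool.Agent.Y546.WQ.Stm3

/-!
# Project RQ: the first case of Fermat's Last Theorem over real quadratic fields: statements

`F` is the cyclotomic field of `m`-th roots of unity.
-/

set_option autoImplicit false

namespace Pool.Agent.K3h44.RQ

open NumberField IsDedekindDomain

/-- the facts about the `m`-th cyclotomic field that are used -/
structure CycM (m : ℕ) (F : Type) [Field F] [NumberField F] where
  z : F
  prim : IsPrimitiveRoot z m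
  σ : (ZMod m)ˣ →* (F ≃ₐ[ℚ] F)
  σ_z : ∀ t, σ t z = z ^ (t : ZMod m).val
  all : ∀ τ : F ≃ₐ[ℚ] F, ∃ t, σ t = τ
  gen : ∀ x : F, IsIntegral ℤ x → ∃ f : Polynomial ℤ, x = Polynomial.aeval z f
  tors : ∀ u : F, IsOfFinOrder u → ∃ i : ℕ, u = z ^ i ∨ u = -z ^ i
  rank : Module.finrank ℚ F = m.totient
  unram : ∀ (P : HeightOneSpectrum (𝓞 F)) (q : ℕ), q.Prime → ¬ q ∣ m →
    ((q : ℕ) : 𝓞 F) ∈ P.asIdeal → ((q : ℕ) : 𝓞 F) ∉ P.asIdeal ^ 2
  unif : ∀ p k : ℕ, p.Prime → m = p * k → ¬ p ∣ k → ∀ P : HeightOneSpectrum (𝓞 F),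
    ((p : ℕ) : 𝓞 F) ∈ P.asIdeal → P.valuation F (1 - z ^ k) = WithZero.exp (-1 : ℤ)

section

variable {m : ℕ} [NeZero m] {F : Type} [Field F] [NumberField F]

/-- the ring isomorphism of the integers induced by `σ t` -/
noncomputable def rsM (c : CycM m F) (t : (ZMod m)ˣ) : 𝓞 F ≃+* 𝓞 F :=
  RingOfIntegers.mapRingEquiv (c.σ t).toRingEquiv

/-- the preimage of a prime ideal under `σ t` -/
noncomputable def actM (c : CycM m F) (t : (ZMod m)ˣ) (P : HeightOneSpectrum (𝓞 F)) :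
    HeightOneSpectrum (𝓞 F) where
  asIdeal := P.asIdeal.comap (rsM c t : 𝓞 F →+* 𝓞 F)
  isPrime := P.isPrime.comap _
  ne_bot := by
    intro h
    apply P.ne_bot
    rw [eq_bot_iff]
    intro x hx
    have h1 : (rsM c t).symm x ∈ P.asIdeal.comap (rsM c t : 𝓞 F →+* 𝓞 F) := by
      rw [Ideal.mem_comap]
      simpa using hx
    rw [h, Ideal.mem_bot] at h1
    rw [Ideal.mem_bot]
    simpa using congrArg (rsM c t) h1

/-- the units `t` for which the representatives of `t` and `a t` between `0` and `m` have a sum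
larger than `m` -/
def hfM (m : ℕ) [NeZero m] (a : ℕ) : Finset (ZMod m)ˣ :=
  Finset.univ.filter fun t => m < (t : ZMod m).val + ((a : ZMod m) * (t : ZMod m)).val

/-- the product of the `σ (t⁻¹) x` over a set of units `t` -/
noncomputable def thM (c : CycM m F) (H : Finset (ZMod m)ˣ) (x : F) : F := ∏ t ∈ H, c.σ t⁻¹ x

end

/-- CYCM: the cyclotomic field -/
def S_CYCM : Prop := ∀ (m : ℕ) [NeZero m], 2 < m → ∃ (F : Type) (_ : Field F) (_ : NumberField F),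
  Nonempty (CycM m F)

/-- JNAM: the norm of the Jacobi sums `J(χ, χ^a)` in an algebraic closure of the `q`-adic numbers -/
def S_JNAM : Prop := ∀ (q : ℕ) [Fact q.Prime] (D : Type) [Field D] [Fintype D] [DecidableEq D]
  [CharP D q] (m F : ℕ), 2 < m → Fintype.card D = q ^ F → m ∣ Fintype.card D - 1 →
  0 < F → ∃ T : MulChar D (PadicAlgCl q), orderOf T = m ∧ ∀ a b : ℕ, 0 < a → a + 2 ≤ m →
    b < m → b.Coprime m → ‖jacobiSum (T ^ b) (T ^ (a * b))‖ = ‖((q : ℕ) : PadicAlgCl q)‖ ^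
      ((Finset.range F).filter fun s => m < (b * q ^ s) % m + (a * b * q ^ s) % m).card

/-- BRM: a `q`-adic embedding defines a prime ideal, and its norm is the valuation -/
def S_BRM : Prop := ∀ (m : ℕ) [NeZero m] (F : Type) [Field F] [NumberField F] (_ : CycM m F)
  (q : ℕ) [Fact q.Prime], ¬ q ∣ m → ∀ τ : F →+* PadicAlgCl q, ∃ P : HeightOneSpectrum (𝓞 F),
    ((q : ℕ) : 𝓞 F) ∈ P.asIdeal ∧ (∀ x : 𝓞 F, x ∈ P.asIdeal ↔ ‖τ x‖ < 1) ∧
    ∀ (x : F) (k : ℤ), P.valuation F x = WithZero.exp (-k) →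
      ‖τ x‖ = ‖((q : ℕ) : PadicAlgCl q)‖ ^ k

/-- STABM: decomposition groups and residue degrees -/
def S_STABM : Prop := ∀ (m : ℕ) [NeZero m] (F : Type) [Field F] [NumberField F] (c : CycM m F)
  (P : HeightOneSpectrum (𝓞 F)) (q : ℕ), 2 < m → q.Prime → ((q : ℕ) : 𝓞 F) ∈ P.asIdeal →
  ∀ g : (ZMod m)ˣ, (g : ZMod m) = q →
    (∀ t : (ZMod m)ˣ, actM c t P = P ↔ t ∈ Subgroup.zpowers g) ∧
    Nat.card (𝓞 F ⧸ P.asIdeal) = q ^ orderOf g ∧
    ∀ P' : HeightOneSpectrum (𝓞 F), ((q : ℕ) : 𝓞 F) ∈ P'.asIdeal →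
      ∃ t : (ZMod m)ˣ, actM c t P = P'

open Classical in
/-- JACM: Stickelberger's theorem for the Jacobi sums `J(χ, χ^a)` of order `m` -/
def S_JACM : Prop := ∀ (m : ℕ) [NeZero m], 2 < m → ∀ a : ℕ, 0 < a → a + 2 ≤ m →
  ∀ (F : Type) [Field F] [NumberField F]
  (c : CycM m F) (Q : HeightOneSpectrum (𝓞 F)), ((m : ℕ) : 𝓞 F) ∉ Q.asIdeal →
  ∃ J : F, J ≠ 0 ∧ (∃ r : ℝ, 0 < r ∧ ∀ φ : F →+* ℂ, ‖φ J‖ ^ 2 = r) ∧
    ∀ P : HeightOneSpectrum (𝓞 F), P.valuation F J =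
      WithZero.exp (-(((hfM m a).filter fun t => actM c t⁻¹ P = Q).card : ℤ))

/-- UNITM: the Stickelberger relation belonging to `a` -/
def S_UNITM : Prop := ∀ (m : ℕ) [NeZero m], 2 < m → ∀ p : ℕ, Odd p → ∀ a : ℕ, 0 < a →
  a + 2 ≤ m → ∀ (F : Type) [Field F] [NumberField F] (c : CycM m F) (x : F), x ≠ 0 →
  (∀ P : HeightOneSpectrum (𝓞 F), ∃ n : ℤ, P.valuation F x = WithZero.exp ((p : ℤ) * n)) →
  (∀ P : HeightOneSpectrum (𝓞 F), ((m : ℕ) : 𝓞 F) ∈ P.asIdeal → P.valuation F x = 1) →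
  ∃ g : F, g ≠ 0 ∧ ∃ i : ℕ, thM c (hfM m a) x = c.z ^ i * g ^ p

/-- APPR: an element all whose valuations are multiples of `p` can be made prime to `m` by
a `p`-th power -/
def S_APPR : Prop := ∀ (F : Type) [Field F] [NumberField F] (m p : ℕ), m ≠ 0 → 0 < p →
  ∀ x : F, x ≠ 0 →
  (∀ P : HeightOneSpectrum (𝓞 F), ∃ n : ℤ, P.valuation F x = WithZero.exp ((p : ℤ) * n)) →
  ∃ b : F, b ≠ 0 ∧ ∀ P : HeightOneSpectrum (𝓞 F), ((m : ℕ) : 𝓞 F) ∈ P.asIdeal →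
    P.valuation F (x * b ^ p) = 1

/-- LAMM: the relation modulo the square of `1 - ζ`, with `ζ = z ^ k` of order `p`, `m = p k` -/
def S_LAMM : Prop := ∀ (m : ℕ) [NeZero m] (p k : ℕ), p.Prime → p ≠ 2 → m = p * k → ¬ p ∣ k →
  ∀ (F : Type) [Field F] [NumberField F] (c : CycM m F) (H : Finset (ZMod m)ˣ) (w : F),
  (∀ P : HeightOneSpectrum (𝓞 F), ((p : ℕ) : 𝓞 F) ∈ P.asIdeal → P.valuation F w ≤ 1) →
  ∀ g : F, g ≠ 0 → ∀ i : ℕ, thM c H (1 - (1 - c.z ^ k) * w) = (c.z ^ k) ^ i * g ^ p →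
  ∀ P : HeightOneSpectrum (𝓞 F), ((p : ℕ) : 𝓞 F) ∈ P.asIdeal →
    P.valuation F (∑ t ∈ H, ((((t⁻¹ : (ZMod m)ˣ) : ZMod m).val : ℕ) : F) * c.σ t⁻¹ w - (i : F)) < 1

/-- GS: a square root of `(-1) ^ (e / 2) e` for odd squarefree `e` dividing `m` -/
def S_GS : Prop := ∀ (e : ℕ), Odd e → Squarefree e → ∀ (m : ℕ) [NeZero m], e ∣ m →
  ∀ (F : Type) [Field F] [NumberField F] (c : CycM m F), ∃ r : F,
    r ^ 2 = (-1) ^ (e / 2) * (e : F) ∧
    ∀ t : (ZMod m)ˣ, c.σ t r = ((jacobiSym ((t : ZMod m).val : ℤ) e : ℤ) : F) * r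

/-- the quadratic character of `ℚ(√d)`, for squarefree `d > 1` -/
def chi (d t : ℕ) : ℤ := if d % 4 = 1 then jacobiSym (t : ℤ) d else jacobiSym (d : ℤ) t

/-- the discriminant of `ℚ(√d)`, for squarefree `d > 1` -/
def dsc (d : ℕ) : ℕ := if d % 4 = 1 then d else 4 * d

/-- SQRT: the square root of `d` in a cyclotomic field and its conjugates -/
def S_SQRT : Prop := ∀ (d : ℕ), 1 < d → Squarefree d → ∀ (m : ℕ) [NeZero m], dsc d ∣ m →
  ∀ (F : Type) [Field F] [NumberField F] (c : CycM m F), ∃ r : F, r ^ 2 = (d : F) ∧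
    ∀ t : (ZMod m)ˣ, c.σ t r = ((chi d (t : ZMod m).val : ℤ) : F) * r

/-- EMB: the embedding of a quadratic field with given image of `√d`; its conjugate -/
def S_EMB : Prop := ∀ (K : Type) [Field K] [NumberField K], Module.finrank ℚ K = 2 →
  ∀ (d : ℕ), 1 < d → Squarefree d → ∀ s : K, s ^ 2 = (d : K) →
  ∀ τ : 𝓞 K →+* 𝓞 K, (∀ a : 𝓞 K, ((Algebra.norm ℤ a : ℤ) : 𝓞 K) = a * τ a) →
  (∀ a : 𝓞 K, ((Algebra.trace ℤ (𝓞 K) a : ℤ) : 𝓞 K) = a + τ a) →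
  ∀ (F : Type) [Field F] [NumberField F] (r : F), r ^ 2 = (d : F) → ∃ j : K →+* F,
    ∀ φ : F →+* F, (φ r = r → ∀ x : 𝓞 K, φ (j x) = j x) ∧
      (φ r = -r → ∀ x : 𝓞 K, φ (j x) = j (τ x))

/-- SQR: from the square of a linear polynomial to the polynomial -/
def S_SQR : Prop := ∀ (p : ℕ) [Fact p.Prime], p ≠ 2 → ∀ u s : ZMod p, u ≠ 0 → 1 + s ≠ 0 →
  Pool.Agent.Y546.WQ.Rel p (Polynomial.C u * (1 + Polynomial.C s * Polynomial.X) ^ 2) →
  Pool.Agent.Y546.WQ.Rel p (1 + Polynomial.C s * Polynomial.X)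

end Pool.Agent.K3h44.RQ
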