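import Pool.Agent.K3h44.RQ.Stm
import Pool.Agent.Y682.XT.Stm

/-!
# Project RQ, second part: class numbers and units of real quadratic fields: statements

`d > 1` is squarefree, `D = dsc d` is the discriminant of `ℚ(√d)`.
-/

set_option autoImplicit false

namespace Pool.Agent.K3h44.RQ

open NumberField IsDedekindDomain

/-- PRIM: the quadratic character of `ℚ(√d)` as a primitive even Dirichlet character -/
def S_PRIM : Prop := ∀ d : ℕ, 1 < d → Squarefree d → ∀ [NeZero (dsc d)],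
  ∃ χ : DirichletCharacter ℂ (dsc d), χ.IsPrimitive ∧ χ ≠ 1 ∧ χ (-1) = 1 ∧
    ∀ t : ℕ, t.Coprime (dsc d) → χ (t : ZMod (dsc d)) = ((chi d t : ℤ) : ℂ)

/-- the sum `∑ χ(t) [t / p] / t` modulo `p`, over the `t` between `0` and `p D` prime to `p D` -/
def TT (d p : ℕ) : ZMod p :=
  ∑ t ∈ (Finset.range (p * dsc d)).filter (fun t => t.Coprime (p * dsc d)),
    ((chi d t : ℤ) : ZMod p) * ((t / p : ℕ) : ZMod p) * (t : ZMod p)⁻¹

/-- FLO: if the sum `TT` is not zero then one of the twisted Stickelberger sums is not zero -/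
def S_FLO : Prop := ∀ d p : ℕ, 1 < d → Squarefree d → p.Prime → p ≠ 2 → ¬ p ∣ dsc d →
  TT d p ≠ 0 → ∃ a : ℕ, 0 < a ∧ a + 2 ≤ p * dsc d ∧
    (∑ t ∈ (Finset.range (p * dsc d)).filter (fun t => t.Coprime (p * dsc d) ∧
      p * dsc d < t + (a * t) % (p * dsc d)), ((chi d t : ℤ) : ZMod p) * (t : ZMod p)⁻¹) ≠ 0

/-- the product of the `1 - z ^ u` over the `u` modulo `D` with `χ(u) = e` -/
noncomputable def PP {d : ℕ} [NeZero (dsc d)] {L : Type} [Field L] [NumberField L]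
    (c : CycM (dsc d) L) (e : ℤ) : L :=
  ∏ u ∈ Finset.univ.filter (fun u : (ZMod (dsc d))ˣ => chi d (u : ZMod (dsc d)).val = e),
    (1 - c.z ^ (u : ZMod (dsc d)).val)

/-- LEO: the congruence of Leopoldt's formula modulo `p ^ 2` -/
def S_LEO : Prop := ∀ d p : ℕ, 1 < d → Squarefree d → ∀ [NeZero (dsc d)], p.Prime → p ≠ 2 →
  ¬ p ∣ dsc d → TT d p = 0 → ∀ (L : Type) [Field L] [NumberField L] (c : CycM (dsc d) L)
  (A B : 𝓞 L),
  (A : L) = PP c 1 → (B : L) = PP c (-1) →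
  ∀ g : (ZMod (dsc d))ˣ, (g : ZMod (dsc d)) = p →
  (p : 𝓞 L) ^ 2 ∣ A ^ p * rsM c g B - B ^ p * rsM c g A

/-- ETA: the cyclotomic unit of a real quadratic field -/
def S_ETA : Prop := ∀ d : ℕ, 1 < d → Squarefree d → ∀ [NeZero (dsc d)],
  ∀ (K : Type) [Field K] [NumberField K], Module.finrank ℚ K = 2 → ∀ s : K, s ^ 2 = (d : K) →
  ∀ (L : Type) [Field L] [NumberField L] (c : CycM (dsc d) L) (j : K →+* L),
  ∃ η : (𝓞 K)ˣ, j ((η : 𝓞 K) : K) * PP c (-1) = PP c 1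

/-- CYX: a field with the bundled properties is a cyclotomic extension -/
def S_CYX : Prop := ∀ (m : ℕ) [NeZero m] (L : Type) [Field L] [NumberField L], CycM m L →
  IsCyclotomicExtension {m} ℚ L

/-- CN1: the class number formula for a real quadratic subfield of a cyclotomic field -/
def S_CN1 : Prop := ∀ (n : ℕ) [NeZero n] (L : Type) [Field L] [NumberField L]
  [IsCyclotomicExtension {n} ℚ L] (F : IntermediateField ℚ L) (χ : DirichletCharacter ℂ n),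
  Module.finrank ℚ F = 2 → (∀ φ : F →+* ℂ, ComplexEmbedding.IsReal φ) → χ.IsPrimitive →
  χ ≠ 1 → χ (-1) = 1 →
  (∀ σ ∈ F.fixingSubgroup, χ (IsCyclotomicExtension.Rat.galEquivZMod n L σ) = 1) →
  2 * (classNumber F : ℝ) * Units.regulator F * Real.sqrt n =
    Real.sqrt |(discr F : ℝ)| *
      ‖∑ u : (ZMod n)ˣ, χ (u : ZMod n) * (Y682.XT.lg n (u : ZMod n) : ℂ)‖

/-- CN3: the index of the group generated by a unit of a real quadratic field -/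
def S_CN3 : Prop := ∀ (K : Type) [Field K] [NumberField K], Module.finrank ℚ K = 2 →
  (∀ φ : K →+* ℂ, ComplexEmbedding.IsReal φ) → ∀ (η : (𝓞 K)ˣ) (φ : K →+* ℂ),
  Real.log ‖φ ((η : 𝓞 K) : K)‖ ≠ 0 → ∃ I : ℕ, I ≠ 0 ∧
    (I : ℝ) * Units.regulator K = |Real.log ‖φ ((η : 𝓞 K) : K)‖| ∧
    ∀ u : (𝓞 K)ˣ, ∃ k : ℤ, u ^ I = η ^ k ∨ u ^ I = -η ^ k

/-- CNFQ: the class number and the index of the cyclotomic unit of a real quadratic field -/
def S_CNFQ : Prop := ∀ d : ℕ, 1 < d → Squarefree d → ∀ [NeZero (dsc d)],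
  ∀ (K : Type) [Field K] [NumberField K], Module.finrank ℚ K = 2 → ∀ s : K, s ^ 2 = (d : K) →
  ∀ (L : Type) [Field L] [NumberField L] (c : CycM (dsc d) L) (j : K →+* L) (η : (𝓞 K)ˣ),
  j ((η : 𝓞 K) : K) * PP c (-1) = PP c 1 →
  ∃ I N : ℕ, I ^ 2 * N = 4 * classNumber K ^ 2 * dsc d ∧
    ∀ u : (𝓞 K)ˣ, ∃ k : ℤ, u ^ I = η ^ k ∨ u ^ I = -η ^ k

/-- UNR: ramified primes divide the discriminant -/
def S_UNR : Prop := ∀ d p : ℕ, 1 < d → Squarefree d → p.Prime → p ≠ 2 → ¬ p ∣ dsc d →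
  ∀ (K : Type) [Field K] [NumberField K], Module.finrank ℚ K = 2 → ∀ s : K, s ^ 2 = (d : K) →
  ∀ P : Ideal (𝓞 K), (p : 𝓞 K) ∈ P ^ 2 → P = ⊤

/-- UW: from the cyclotomic unit to all units -/
def S_UW : Prop := ∀ (p : ℕ), p.Prime → p ≠ 2 → ∀ (K : Type) [Field K] [NumberField K],
  Module.finrank ℚ K = 2 → (∀ P : Ideal (𝓞 K), (p : 𝓞 K) ∈ P ^ 2 → P = ⊤) →
  ∀ (η : (𝓞 K)ˣ) (I : ℕ), ¬ p ∣ I → (p : 𝓞 K) ^ 2 ∣ (η : 𝓞 K) ^ (p ^ 2) - (η : 𝓞 K) →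
  (∀ u : (𝓞 K)ˣ, ∃ k : ℤ, u ^ I = η ^ k ∨ u ^ I = -η ^ k) →
  ∀ u : (𝓞 K)ˣ, (p : 𝓞 K) ^ 2 ∣ (u : 𝓞 K) ^ (p ^ 2 - 1) - 1

end Pool.Agent.K3h44.RQ
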