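import Pool.Agent.K3h44.RQ.Asm
import Pool.Agent.K3h20.RQ.APPR
import Pool.Agent.K3h23.RQ.JNAM
import Pool.Agent.K3h42.RQ.STABM
import Pool.Agent.K3h55.RQ.UNITM
import Pool.Agent.K3h57.RQ.BRM
import Pool.Agent.K3h57.RQ.CYCM
import Pool.Agent.K3h67.RQ.EMB
import Pool.Agent.K3h67.RQ.SQR
import Pool.Agent.K3h72.RQ.JACM
import Pool.Agent.K3h73.RQ.GS
import Pool.Agent.K3h73.RQ.SQRT
import Pool.Agent.K3h76.RQ.LAMM

/-!
# Project RQ: the congruence for the norms from the twisted Stickelberger sum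
-/

set_option autoImplicit false

namespace Pool.Agent.K3h44.RQ

open NumberField IsDedekindDomain Pool.Agent.Y546.WQ

theorem aUNITM : S_UNITM := K3h55.RQ.t_UNITM (K3h72.RQ.t_JACM K3h23.RQ.t_JNAM K3h57.RQ.t_BRM
  K3h42.RQ.t_STABM)

theorem aSQRT : S_SQRT := K3h73.RQ.t_SQRT K3h73.RQ.t_GS

theorem dsc_ge {d : ℕ} (h1 : 1 < d) : 5 ≤ dsc d := by
  unfold dsc
  split_ifs with h
  · omega
  · omega

/-- a number with a rational square root is not squarefree -/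
theorem not_rat {d : ℕ} (h1 : 1 < d) (hd : Squarefree d) (q : ℚ) : q ^ 2 ≠ d := by
  intro h
  have h2 : IsSquare (d : ℚ) := ⟨q, by rw [← h, sq]⟩
  rw [Rat.isSquare_natCast_iff] at h2
  obtain ⟨e, he⟩ := h2
  have h3 : IsUnit e := hd e ⟨1, by rw [mul_one]; exact he⟩
  rw [Nat.isUnit_iff] at h3
  subst h3
  omega

section

variable {m : ℕ} [NeZero m] {F : Type} [Field F] [NumberField F]

theorem chi_pm (c : CycM m F) {d : ℕ} (h1 : 1 < d) (r : F) (hr : r ^ 2 = (d : F))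
    (hσ : ∀ t : (ZMod m)ˣ, c.σ t r = ((chi d (t : ZMod m).val : ℤ) : F) * r) (t : (ZMod m)ˣ) :
    chi d (t : ZMod m).val = 1 ∨ chi d (t : ZMod m).val = -1 := by
  have hr0 : r ≠ 0 := by
    rintro rfl
    have : (d : F) = 0 := by rw [← hr]; ring
    have h2 : d = 0 := by exact_mod_cast this
    omega
  have h3 : (c.σ t r) ^ 2 = r ^ 2 := by
    rw [← map_pow, hr, map_natCast]
  rw [hσ, mul_pow] at h3
  have h4 : (((chi d (t : ZMod m).val : ℤ) : F)) ^ 2 = 1 :=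
    mul_right_cancel₀ (pow_ne_zero 2 hr0) (h3.trans (one_mul _).symm)
  have h5 : (chi d (t : ZMod m).val) ^ 2 = 1 := by exact_mod_cast h4
  have h6 : (chi d (t : ZMod m).val - 1) * (chi d (t : ZMod m).val + 1) = 0 := by
    linear_combination h5
  rcases mul_eq_zero.1 h6 with h | h
  · exact Or.inl (by omega)
  · exact Or.inr (by omega)

theorem exists_neg (c : CycM m F) {d : ℕ} (h1 : 1 < d) (hd : Squarefree d) (r : F)
    (hr : r ^ 2 = (d : F))
    (hσ : ∀ t : (ZMod m)ˣ, c.σ t r = ((chi d (t : ZMod m).val : ℤ) : F) * r) :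
    ∃ t : (ZMod m)ˣ, chi d (t : ZMod m).val = -1 := by
  by_contra hcon
  push Not at hcon
  have hfix : ∀ τ : F ≃ₐ[ℚ] F, τ r = r := by
    intro τ
    obtain ⟨t, rfl⟩ := c.all τ
    rw [hσ]
    rcases chi_pm c h1 r hr hσ t with h | h
    · rw [h]
      simp
    · exact absurd h (hcon t)
  have hgal := K3h42.RQ.isGal c
  obtain ⟨q, hq⟩ := (IsGalois.mem_bot_iff_fixed r).2 hfix
  apply not_rat h1 hd q
  have h2 : algebraMap ℚ F (q ^ 2) = algebraMap ℚ F d := by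
    rw [map_pow, map_natCast, ← hr]
    congr 1
  exact (algebraMap ℚ F).injective h2

end

/-- the sum over the units as a sum over natural numbers -/
theorem sum_eq {m : ℕ} [NeZero m] {p : ℕ} [Fact p.Prime] (hpm : p ∣ m) (hm : 1 < m) (d a : ℕ) :
    (∑ t ∈ hfM m a, ((chi d (t : ZMod m).val : ℤ) : ZMod p) *
      (((t⁻¹ : (ZMod m)ˣ) : ZMod m).val : ZMod p)) =
    ∑ t ∈ (Finset.range m).filter (fun t => t.Coprime m ∧ m < t + (a * t) % m),
      ((chi d t : ℤ) : ZMod p) * (t : ZMod p)⁻¹ := by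
  have hm0 : m ≠ 0 := NeZero.ne m
  refine Finset.sum_bij (fun t _ => (t : ZMod m).val) ?_ ?_ ?_ ?_
  · intro t ht
    simp only [hfM, Finset.mem_filter, Finset.mem_univ, true_and] at ht
    simp only [Finset.mem_filter, Finset.mem_range]
    refine ⟨ZMod.val_lt _, ZMod.val_coe_unit_coprime t, ?_⟩
    have h1 : ((a : ZMod m) * (t : ZMod m)).val = (a * (t : ZMod m).val) % m := by
      rw [← ZMod.val_natCast]
      push_cast
      rw [ZMod.natCast_zmod_val]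
    rw [← h1]
    exact ht
  · intro t _ t' _ h
    exact Units.ext (ZMod.val_injective m h)
  · intro t ht
    simp only [Finset.mem_filter, Finset.mem_range] at ht
    obtain ⟨h1, h2, h3⟩ := ht
    have h4 : ((ZMod.unitOfCoprime t h2 : (ZMod m)ˣ) : ZMod m).val = t := by
      rw [ZMod.coe_unitOfCoprime, ZMod.val_natCast, Nat.mod_eq_of_lt h1]
    refine ⟨ZMod.unitOfCoprime t h2, ?_, h4⟩
    simp only [hfM, Finset.mem_filter, Finset.mem_univ, true_and]
    rw [h4, ZMod.coe_unitOfCoprime, ← Nat.cast_mul, ZMod.val_natCast]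
    exact h3
  · intro t _
    congr 1
    have h1 : (((t : ZMod m).val : ℕ) : ZMod p) = ((t : ZMod m)).cast := by
      rw [ZMod.natCast_val]
    have h2 : ((((t⁻¹ : (ZMod m)ˣ) : ZMod m).val : ℕ) : ZMod p) =
        (((t⁻¹ : (ZMod m)ˣ) : ZMod m)).cast := by
      rw [ZMod.natCast_val]
    rw [h1, h2]
    have h3 : (((t : ZMod m)).cast : ZMod p) * (((t⁻¹ : (ZMod m)ˣ) : ZMod m)).cast = 1 := by
      rw [← ZMod.cast_mul hpm, ← Units.val_mul, mul_inv_cancel, Units.val_one, ZMod.cast_one hpm]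
    exact eq_inv_of_mul_eq_one_right h3

/-- the congruence for the norms from the twisted Stickelberger sum -/
theorem divTop {K : Type} [Field K] [NumberField K] (hK : Module.finrank ℚ K = 2)
    {d : ℕ} (h1 : 1 < d) (hd : Squarefree d) (s : K) (hs : s ^ 2 = (d : K)) {p : ℕ}
    (hp : p.Prime) (hp2 : p ≠ 2) (hpD : ¬ p ∣ dsc d) (a : ℕ) (ha : 0 < a)
    (ham : a + 2 ≤ p * dsc d)
    (hne : (∑ t ∈ (Finset.range (p * dsc d)).filter (fun t => t.Coprime (p * dsc d) ∧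
      p * dsc d < t + (a * t) % (p * dsc d)), ((chi d t : ℤ) : ZMod p) * (t : ZMod p)⁻¹) ≠ 0)
    (σ : 𝓞 K →+* 𝓞 K)
    (hN : ∀ a : 𝓞 K, ((Algebra.norm ℤ a : ℤ) : 𝓞 K) = a * σ a)
    (hT : ∀ a : 𝓞 K, ((Algebra.trace ℤ (𝓞 K) a : ℤ) : 𝓞 K) = a + σ a) : Div p K σ := by
  have h5 := dsc_ge h1
  have hp3 : 3 ≤ p := by
    have := hp.two_le
    omega
  obtain ⟨m, hm⟩ : ∃ m, m = p * dsc d := ⟨_, rfl⟩
  have hm15 : 15 ≤ m := by
    rw [hm]
    nlinarith
  have hne0 : NeZero m := ⟨by omega⟩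
  have hpf : Fact p.Prime := ⟨hp⟩
  obtain ⟨F, _, _, ⟨c⟩⟩ := K3h57.RQ.t_CYCM m (by omega)
  obtain ⟨r, hr, hσ⟩ := aSQRT d h1 hd m (by rw [hm]; exact dvd_mul_left _ _) F c
  obtain ⟨j, hj⟩ := K3h67.RQ.t_EMB K hK d h1 hd s hs σ hN hT F r hr
  obtain ⟨t₀, ht₀⟩ := exists_neg c h1 hd r hr hσ
  intro X Y Z sol
  refine divM aUNITM K3h20.RQ.t_APPR K3h76.RQ.t_LAMM hp hp2 hm hpD a ha (by rw [hm]; exact ham) c
    σ hN hT j (fun t => chi d (t : ZMod m).val) ?_ t₀ ht₀ ?_ sol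
  · intro t
    have h2 := hj ((c.σ t : F ≃ₐ[ℚ] F) : F →+* F)
    rcases chi_pm c h1 r hr hσ t with h | h
    · refine Or.inl ⟨h, h2.1 ?_⟩
      have h3 := hσ t
      rw [h, Int.cast_one, one_mul] at h3
      exact h3
    · refine Or.inr ⟨h, h2.2 ?_⟩
      have h3 := hσ t
      rw [h, Int.cast_neg, Int.cast_one, neg_one_mul] at h3
      exact h3
  · rw [sum_eq (by rw [hm]; exact dvd_mul_right _ _) (by omega), hm]
    exact hne

end Pool.Agent.K3h44.RQ
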