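import Pool.Agent.K3h44.RQ.Top
import Pool.Agent.K3h44.RQ.Stm2
import Pool.Agent.K3h4.RQ.CNFQ
import Pool.Agent.K3h16.RQ.ETA
import Pool.Agent.K3h20.RQ.PRIM
import Pool.Agent.K3h55.RQ.CN3
import Pool.Agent.K3h64.RQ.CN1
import Pool.Agent.K3h77.RQ.UW
import Pool.Agent.K3h85.RQ.FLO
import Pool.Agent.K3h85.RQ.LEO

/-!
# Project RQ: the congruence for the norms from class numbers and units
-/

set_option autoImplicit false

namespace Pool.Agent.K3h44.RQ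

open NumberField IsDedekindDomain Pool.Agent.Y546.WQ

section

variable {K : Type} [Field K] [NumberField K]

/-- a real quadratic field is generated by the square root of a squarefree number -/
theorem exists_sqrt (hK : Module.finrank ℚ K = 2) (φ : K →+* ℝ) :
    ∃ d : ℕ, 1 < d ∧ Squarefree d ∧ ∃ s : K, s ^ 2 = (d : K) := by
  obtain ⟨σ, hN, hT⟩ := Y546.SG.exists_conj hK
  have hσσ := conj_conj σ hT
  -- an integer which is not fixed
  obtain ⟨w, hw⟩ : ∃ w : 𝓞 K, σ w ≠ w := by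
    by_contra hcon
    push Not at hcon
    have h1 : ∀ x : K, ∃ q : ℚ, algebraMap ℚ K q = x := by
      intro x
      obtain ⟨a, b, hb, rfl⟩ := IsFractionRing.div_surjective (A := 𝓞 K) x
      have h2 : ∀ a : 𝓞 K, ∃ q : ℚ, algebraMap ℚ K q = algebraMap (𝓞 K) K a := by
        intro a
        refine ⟨(Algebra.trace ℤ (𝓞 K) a : ℤ) / 2, ?_⟩
        have h3 := hT a
        rw [hcon a] at h3
        have h4 := congrArg (algebraMap (𝓞 K) K) h3
        rw [map_intCast, map_add] at h4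
        rw [map_div₀, map_intCast, map_ofNat, h4]
        field_simp
        ring
      obtain ⟨q1, h3⟩ := h2 a
      obtain ⟨q2, h4⟩ := h2 b
      exact ⟨q1 / q2, by rw [map_div₀, h3, h4]⟩
    have h2 : Function.Surjective (algebraMap ℚ K) := h1
    have h3 : Module.finrank ℚ K = 1 := by
      have h4 : (⊥ : Subalgebra ℚ K) = ⊤ := by
        rw [eq_top_iff]
        intro x _
        rw [Algebra.mem_bot]
        exact h2 x
      exact Subalgebra.bot_eq_top_iff_finrank_eq_one.1 h4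
    omega
  have hδ : (w - σ w) ^ 2 = ((Algebra.trace ℤ (𝓞 K) w ^ 2 - 4 * Algebra.norm ℤ w : ℤ) : 𝓞 K) := by
    push_cast
    rw [hT, hN]
    ring
  obtain ⟨Δ, hΔ⟩ : ∃ Δ : ℤ, Δ = Algebra.trace ℤ (𝓞 K) w ^ 2 - 4 * Algebra.norm ℤ w := ⟨_, rfl⟩
  rw [← hΔ] at hδ
  have hδ0 : w - σ w ≠ 0 := fun h => hw (sub_eq_zero.1 h).symm
  have hΔ0 : Δ ≠ 0 := by
    rintro rfl
    rw [Int.cast_zero] at hδ
    exact hδ0 ((pow_eq_zero_iff two_ne_zero).1 hδ)
  obtain ⟨δ, hδK⟩ : ∃ δ : K, δ = ((w - σ w : 𝓞 K) : K) := ⟨_, rfl⟩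
  have hδ2 : δ ^ 2 = (Δ : K) := by
    rw [hδK]
    have := congrArg (algebraMap (𝓞 K) K) hδ
    rw [map_pow, map_intCast] at this
    exact this
  have hδK0 : δ ≠ 0 := by
    rw [hδK]
    exact RingOfIntegers.coe_ne_zero_iff.2 hδ0
  have hΔpos : 0 < Δ := by
    have h1 := congrArg φ hδ2
    rw [map_pow, map_intCast] at h1
    have h2 : (0 : ℝ) < (Δ : ℝ) := by
      rw [← h1]
      have : φ δ ≠ 0 := by rw [Ne, map_eq_zero]; exact hδK0
      positivity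
    exact_mod_cast h2
  obtain ⟨D, hD⟩ : ∃ D : ℕ, (D : ℤ) = Δ := ⟨Δ.toNat, by omega⟩
  obtain ⟨d, f, hdf, hd⟩ := Nat.sq_mul_squarefree D
  have hD0 : D ≠ 0 := by omega
  have hf0 : f ≠ 0 := by
    rintro rfl
    apply hD0
    rw [← hdf]
    ring
  have hd0 : d ≠ 0 := hd.ne_zero
  have hfK : (f : K) ≠ 0 := by exact_mod_cast hf0
  have hs : (δ / f) ^ 2 = (d : K) := by
    rw [div_pow, hδ2, ← hD, ← hdf]
    push_cast
    field_simp
  refine ⟨d, ?_, hd, δ / f, hs⟩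
  by_contra hcon
  have hd1 : d = 1 := by omega
  rw [hd1, Nat.cast_one] at hs
  have h1 : (δ / f - 1) * (δ / f + 1) = 0 := by linear_combination hs
  have h2 : δ = f ∨ δ = -f := by
    rcases mul_eq_zero.1 h1 with h | h
    · left
      field_simp at h
      linear_combination h
    · right
      field_simp at h
      linear_combination h
  have h3 : ∃ n : ℤ, w - σ w = (n : 𝓞 K) := by
    rcases h2 with h | h
    · refine ⟨f, RingOfIntegers.coe_injective ?_⟩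
      rw [map_intCast]
      rw [hδK] at h
      push_cast
      exact h
    · refine ⟨-f, RingOfIntegers.coe_injective ?_⟩
      rw [map_intCast]
      rw [hδK] at h
      push_cast
      exact h
  obtain ⟨n, hn⟩ := h3
  have h4 := congrArg σ hn
  rw [map_sub, hσσ, map_intCast] at h4
  have h5 : w - σ w = 0 := by
    have : (2 : 𝓞 K) * (w - σ w) = 0 := by linear_combination hn - h4
    exact (mul_eq_zero.1 this).resolve_left two_ne_zero
  exact hδ0 h5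

/-- a prime dividing `d` divides all the discriminants -/
theorem disc_dvd (σ : 𝓞 K →+* 𝓞 K)
    (hN : ∀ a : 𝓞 K, ((Algebra.norm ℤ a : ℤ) : 𝓞 K) = a * σ a)
    (hT : ∀ a : 𝓞 K, ((Algebra.trace ℤ (𝓞 K) a : ℤ) : 𝓞 K) = a + σ a)
    {d : ℕ} (h1 : 1 < d) (hd : Squarefree d) (s : K) (hs : s ^ 2 = (d : K)) {p : ℕ}
    (hp : p.Prime) (hpd : p ∣ d) (w : 𝓞 K) :
    (p : ℤ) ∣ Algebra.trace ℤ (𝓞 K) w ^ 2 - 4 * Algebra.norm ℤ w := by
  have hσσ := conj_conj σ hT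
  have hsint : IsIntegral ℤ s := by
    refine ⟨Polynomial.X ^ 2 - Polynomial.C (d : ℤ), Polynomial.monic_X_pow_sub_C _ two_ne_zero, ?_⟩
    simp [hs]
  obtain ⟨S, hS⟩ : ∃ S : 𝓞 K, (S : K) = s := ⟨⟨s, hsint⟩, rfl⟩
  have hS2 : S ^ 2 = (d : 𝓞 K) := by
    apply RingOfIntegers.coe_injective
    rw [map_pow, map_natCast, ← hs, ← hS]
  -- an integer fixed by `σ` is rational
  have hfix : ∀ a : 𝓞 K, σ a = a → ∃ n : ℤ, (n : 𝓞 K) = a := by
    intro a ha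
    have h2 := hT a
    rw [ha] at h2
    have h3 := hN a
    rw [ha] at h3
    have h4 : (Algebra.trace ℤ (𝓞 K) a : ℤ) ^ 2 = 4 * (Algebra.norm ℤ a : ℤ) := by
      have : ((Algebra.trace ℤ (𝓞 K) a ^ 2 : ℤ) : 𝓞 K) =
          ((4 * Algebra.norm ℤ a : ℤ) : 𝓞 K) := by
        push_cast
        rw [h2, h3]
        ring
      exact_mod_cast this
    have h5 : Even (Algebra.trace ℤ (𝓞 K) a) := by
      have h6 : Even (Algebra.trace ℤ (𝓞 K) a ^ 2) := by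
        rw [h4]
        exact ⟨2 * Algebra.norm ℤ a, by ring⟩
      exact (Int.even_pow.1 h6).1
    obtain ⟨n, hn⟩ := h5
    refine ⟨n, ?_⟩
    rw [hn] at h2
    push_cast at h2
    have : (2 : 𝓞 K) * ((n : 𝓞 K) - a) = 0 := by linear_combination h2
    exact sub_eq_zero.1 ((mul_eq_zero.1 this).resolve_left two_ne_zero)
  have hσS : σ S = -S := by
    have h2 : (σ S) ^ 2 = S ^ 2 := by rw [← map_pow, hS2, map_natCast]
    have h3 : (σ S - S) * (σ S + S) = 0 := by linear_combination h2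
    rcases mul_eq_zero.1 h3 with h | h
    · exfalso
      obtain ⟨n, hn⟩ := hfix S (sub_eq_zero.1 h)
      have h4 : ((n ^ 2 : ℤ) : 𝓞 K) = ((d : ℤ) : 𝓞 K) := by
        push_cast
        rw [hn, hS2]
      have h5 : n ^ 2 = (d : ℤ) := by exact_mod_cast h4
      apply not_rat h1 hd n
      exact_mod_cast h5
    · linear_combination h
  obtain ⟨e, he⟩ := hfix ((w - σ w) * S) (by
    rw [map_mul, map_sub, hσσ, hσS]
    ring)
  have h2 : e ^ 2 = (Algebra.trace ℤ (𝓞 K) w ^ 2 - 4 * Algebra.norm ℤ w) * d := by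
    have h3 : ((e ^ 2 : ℤ) : 𝓞 K) =
        (((Algebra.trace ℤ (𝓞 K) w ^ 2 - 4 * Algebra.norm ℤ w) * d : ℤ) : 𝓞 K) := by
      push_cast
      rw [he, hT, hN, mul_pow, hS2]
      ring
    exact_mod_cast h3
  have hpz : Prime (p : ℤ) := Nat.prime_iff_prime_int.1 hp
  obtain ⟨d', hd'⟩ := hpd
  have h3 : (p : ℤ) ∣ e := by
    apply hpz.dvd_of_dvd_pow (n := 2)
    rw [h2, hd']
    push_cast
    exact ⟨(Algebra.trace ℤ (𝓞 K) w ^ 2 - 4 * Algebra.norm ℤ w) * d', by ring⟩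
  obtain ⟨e', he'⟩ := h3
  have hd'p : ¬ (p : ℤ) ∣ (d' : ℤ) := by
    intro h
    have h4 : p ∣ d' := by exact_mod_cast h
    obtain ⟨d'', hd''⟩ := h4
    have h5 : IsUnit p := hd p ⟨d'', by rw [hd', hd'']; ring⟩
    exact hp.one_lt.ne' (Nat.isUnit_iff.1 h5)
  have h4 : (p : ℤ) * ((p : ℤ) * e' ^ 2) =
      p * ((Algebra.trace ℤ (𝓞 K) w ^ 2 - 4 * Algebra.norm ℤ w) * d') := by
    rw [he', hd'] at h2
    push_cast at h2
    linear_combination h2
  have h5 := mul_left_cancel₀ hpz.ne_zero h4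
  have h6 : (p : ℤ) ∣ (Algebra.trace ℤ (𝓞 K) w ^ 2 - 4 * Algebra.norm ℤ w) * d' := by
    rw [← h5]
    exact dvd_mul_right _ _
  exact (hpz.dvd_or_dvd h6).resolve_right hd'p

/-- primes dividing `d`: the congruence for the norms holds -/
theorem divRam (σ : 𝓞 K →+* 𝓞 K)
    (hN : ∀ a : 𝓞 K, ((Algebra.norm ℤ a : ℤ) : 𝓞 K) = a * σ a)
    (hT : ∀ a : 𝓞 K, ((Algebra.trace ℤ (𝓞 K) a : ℤ) : 𝓞 K) = a + σ a)
    {d : ℕ} (h1 : 1 < d) (hd : Squarefree d) (s : K) (hs : s ^ 2 = (d : K)) {p : ℕ}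
    (hp : p.Prime) (hpd : p ∣ d) : Div p K σ := by
  intro X Y Z _
  have hσσ := conj_conj σ hT
  have h2 := disc_dvd σ hN hT h1 hd s hs hp hpd (X * σ Y)
  have h3 : Algebra.norm ℤ (X * σ Y) = Algebra.norm ℤ X * Algebra.norm ℤ Y := by
    have e1 : ((Algebra.norm ℤ (X * σ Y) : ℤ) : 𝓞 K) =
        ((Algebra.norm ℤ X * Algebra.norm ℤ Y : ℤ) : 𝓞 K) := by
      push_cast
      rw [hN, hN, hN, map_mul, hσσ]
      ring
    exact_mod_cast e1
  rw [h3] at h2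
  exact h2

/-- the factors `1 - z ^ u` divide the order of the root of unity -/
theorem one_sub_dvd {R : Type*} [CommRing R] [IsDomain R] {n : ℕ} {z : R}
    (hz : IsPrimitiveRoot z n) {u : ℕ} (h0 : u ≠ 0) (hu : u < n) : 1 - z ^ u ∣ (n : R) := by
  obtain ⟨m, rfl⟩ : ∃ m, n = m + 1 := ⟨n - 1, by omega⟩
  have h := hz.prod_one_sub_pow_eq_order
  obtain ⟨l, rfl⟩ : ∃ l, u = l + 1 := ⟨u - 1, by omega⟩
  have h2 : 1 - z ^ (l + 1) ∣ ∏ k ∈ Finset.range m, (1 - z ^ (k + 1)) :=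
    Finset.dvd_prod_of_mem (fun k => 1 - z ^ (k + 1)) (Finset.mem_range.2 (by omega))
  rw [h] at h2
  push_cast
  exact h2

/-- the congruence for the norms from class numbers and units -/
theorem divUnit (hCYX : S_CYX) (hUNR : S_UNR) (hK : Module.finrank ℚ K = 2)
    {d : ℕ} (h1 : 1 < d) (hd : Squarefree d) (s : K) (hs : s ^ 2 = (d : K)) {p : ℕ}
    (hp : p.Prime) (hp2 : p ≠ 2) (hh : ¬ p ∣ classNumber K)
    (hu : ∃ u : (𝓞 K)ˣ, ¬ (p : 𝓞 K) ^ 2 ∣ (u : 𝓞 K) ^ (p ^ 2 - 1) - 1) (σ : 𝓞 K →+* 𝓞 K)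
    (hN : ∀ a : 𝓞 K, ((Algebra.norm ℤ a : ℤ) : 𝓞 K) = a * σ a)
    (hT : ∀ a : 𝓞 K, ((Algebra.trace ℤ (𝓞 K) a : ℤ) : 𝓞 K) = a + σ a) : Div p K σ := by
  by_cases hpd : p ∣ d
  · exact divRam σ hN hT h1 hd s hs hp hpd
  have hpz : Prime (p : ℤ) := Nat.prime_iff_prime_int.1 hp
  have hσσ := conj_conj σ hT
  have h5 := dsc_ge h1
  have hpD : ¬ p ∣ dsc d := by
    unfold dsc
    split_ifs with h
    · exact hpd
    · intro h2
      rcases (Nat.Prime.dvd_mul hp).1 h2 with h3 | h3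
      · have h4 : p ∣ 2 := by
          have : p ∣ 2 ^ 2 := by norm_num; exact h3
          exact hp.dvd_of_dvd_pow this
        exact hp2 ((Nat.prime_dvd_prime_iff_eq hp Nat.prime_two).1 h4)
      · exact hpd h3
  have hne0 : NeZero (dsc d) := ⟨by omega⟩
  suffices hTT : TT d p ≠ 0 by
    obtain ⟨a, ha, ham, hne⟩ := K3h85.RQ.t_FLO d p h1 hd hp hp2 hpD hTT
    exact divTop hK h1 hd s hs hp hp2 hpD a ha ham hne σ hN hT
  intro hTT
  obtain ⟨L, _, _, ⟨c⟩⟩ := K3h57.RQ.t_CYCM (dsc d) (by omega)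
  obtain ⟨r, hr, hσr⟩ := aSQRT d h1 hd (dsc d) (dvd_refl _) L c
  obtain ⟨j, hj⟩ := K3h67.RQ.t_EMB K hK d h1 hd s hs σ hN hT L r hr
  obtain ⟨η, hη⟩ := K3h16.RQ.t_ETA aSQRT d h1 hd K hK s hs L c j
  obtain ⟨I, N, hIN, hunits⟩ := K3h4.RQ.t_CNFQ K3h64.RQ.CN1.t_CN1 K3h55.RQ.CN3.t_CN3 hCYX K3h20.RQ.t_PRIM
    aSQRT d h1 hd K hK s hs L c j η hη
  have hI : ¬ p ∣ I := by
    intro h
    have h2 : p ∣ 4 * classNumber K ^ 2 * dsc d := by
      rw [← hIN]
      exact Dvd.dvd.mul_right (dvd_pow h two_ne_zero) _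
    rcases (Nat.Prime.dvd_mul hp).1 h2 with h3 | h3
    · rcases (Nat.Prime.dvd_mul hp).1 h3 with h4 | h4
      · have h6 : p ∣ 2 := by
          have : p ∣ 2 ^ 2 := by norm_num; exact h4
          exact hp.dvd_of_dvd_pow this
        exact hp2 ((Nat.prime_dvd_prime_iff_eq hp Nat.prime_two).1 h6)
      · exact hh (hp.dvd_of_dvd_pow h4)
    · exact hpD h3
  -- integral elements
  have hzint : IsIntegral ℤ c.z := c.prim.isIntegral (by omega)
  obtain ⟨ζ, hζ⟩ : ∃ w : 𝓞 L, (w : L) = c.z := ⟨⟨c.z, hzint⟩, rfl⟩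
  have hζp : IsPrimitiveRoot ζ (dsc d) := by
    apply IsPrimitiveRoot.of_map_of_injective (f := algebraMap (𝓞 L) L) _
      RingOfIntegers.coe_injective
    have h1 : algebraMap (𝓞 L) L ζ = c.z := hζ
    rw [h1]
    exact c.prim
  have hPP : ∀ e : ℤ, ∃ A : 𝓞 L, (A : L) = PP c e ∧ A ∣ ((dsc d : ℕ) : 𝓞 L) ^
      (Finset.univ.filter (fun u : (ZMod (dsc d))ˣ => chi d (u : ZMod (dsc d)).val = e)).card := by
    intro e
    refine ⟨∏ u ∈ Finset.univ.filter (fun u : (ZMod (dsc d))ˣ => chi d (u : ZMod (dsc d)).val = e),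
      (1 - ζ ^ (u : ZMod (dsc d)).val), ?_, ?_⟩
    · have h2 := map_prod (algebraMap (𝓞 L) L) (fun u : (ZMod (dsc d))ˣ =>
        (1 - ζ ^ (u : ZMod (dsc d)).val)) (Finset.univ.filter (fun u : (ZMod (dsc d))ˣ =>
          chi d (u : ZMod (dsc d)).val = e))
      refine h2.trans (Finset.prod_congr rfl fun u _ => ?_)
      rw [map_sub, map_one, map_pow]
      have h1 : algebraMap (𝓞 L) L ζ = c.z := hζ
      rw [h1]
    · rw [← Finset.prod_const]
      refine Finset.prod_dvd_prod_of_dvd _ _ fun u _ => ?_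
      have hu0 : (u : ZMod (dsc d)).val ≠ 0 := by
        intro h0
        have h2 := ZMod.val_coe_unit_coprime u
        rw [h0, Nat.coprime_zero_left] at h2
        omega
      exact one_sub_dvd hζp hu0 (ZMod.val_lt _)
  obtain ⟨A, hA, -⟩ := hPP 1
  obtain ⟨B, hB, hBd⟩ := hPP (-1)
  have hcop : Nat.Coprime p (dsc d) := (Nat.Prime.coprime_iff_not_dvd hp).2 hpD
  obtain ⟨g, hg⟩ : ∃ g : (ZMod (dsc d))ˣ, (g : ZMod (dsc d)) = p :=
    ⟨ZMod.unitOfCoprime p hcop, ZMod.coe_unitOfCoprime p hcop⟩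
  have hleo := K3h85.RQ.Leo.t_LEO K3h20.RQ.t_PRIM d p h1 hd hp hp2 hpD hTT L c A B hA hB g hg
  -- the map on integers
  obtain ⟨J, hJ⟩ : ∃ J : 𝓞 K →+* 𝓞 L, ∀ x : 𝓞 K, ((J x : 𝓞 L) : L) = j (x : K) :=
    ⟨RingOfIntegers.mapRingHom j, fun x => rfl⟩
  have hAB : A = J (η : 𝓞 K) * B := by
    apply RingOfIntegers.coe_injective
    rw [map_mul]
    have e1 : algebraMap (𝓞 L) L A = PP c 1 := hA
    have e2 : algebraMap (𝓞 L) L B = PP c (-1) := hB
    have e3 : algebraMap (𝓞 L) L (J (η : 𝓞 K)) = j ((η : 𝓞 K) : K) := hJ _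
    rw [e1, e2, e3, hη]
  -- the conjugate of `η`
  obtain ⟨η', hη', hηη⟩ : ∃ η' : 𝓞 K, rsM c g (J (η : 𝓞 K)) = J η' ∧
      ((η' : 𝓞 K) = η ∨ η' = σ η) := by
    have h2 := hj ((c.σ g : L ≃ₐ[ℚ] L) : L →+* L)
    have e1 : ∀ x : 𝓞 K, ((rsM c g (J x) : 𝓞 L) : L) = c.σ g (j (x : K)) := by
      intro x
      rw [← hJ]
      rfl
    rcases chi_pm c h1 r hr hσr g with h | h
    · refine ⟨η, RingOfIntegers.coe_injective ?_, Or.inl rfl⟩
      have h3 := hσr g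
      rw [h, Int.cast_one, one_mul] at h3
      have h4 := h2.1 h3 (η : 𝓞 K)
      refine (e1 _).trans ?_
      refine Eq.trans ?_ (hJ _).symm
      exact h4
    · refine ⟨σ η, RingOfIntegers.coe_injective ?_, Or.inr rfl⟩
      have h3 := hσr g
      rw [h, Int.cast_neg, Int.cast_one, neg_one_mul] at h3
      have h4 := h2.2 h3 (η : 𝓞 K)
      refine (e1 _).trans ?_
      refine Eq.trans ?_ (hJ _).symm
      exact h4
  rw [hAB, map_mul, hη', mul_pow] at hleo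
  have hleo2 : (p : 𝓞 L) ^ 2 ∣ (B ^ p * rsM c g B) * (J (η : 𝓞 K) ^ p - J η') := by
    have e : (B ^ p * rsM c g B) * (J (η : 𝓞 K) ^ p - J η') =
        J (η : 𝓞 K) ^ p * B ^ p * rsM c g B - B ^ p * (J η' * rsM c g B) := by ring
    rw [e]
    exact hleo
  -- coprimality
  have hco : IsCoprime ((p : 𝓞 L) ^ 2) (B ^ p * rsM c g B) := by
    have h2 : IsCoprime (p : 𝓞 L) ((dsc d : ℕ) : 𝓞 L) := by
      have h3 : IsCoprime (p : ℤ) (dsc d : ℤ) := Nat.isCoprime_iff_coprime.2 hcop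
      have h4 := h3.map (Int.castRingHom (𝓞 L))
      simpa using h4
    have h3 : IsCoprime (p : 𝓞 L) B := (h2.pow_right).of_isCoprime_of_dvd_right hBd
    have h4 : IsCoprime (p : 𝓞 L) (rsM c g B) := by
      have := h3.map (rsM c g : 𝓞 L →+* 𝓞 L)
      rw [map_natCast] at this
      exact this
    exact (h3.pow_right.mul_right h4).pow_left
  have hleo3 : (p : 𝓞 L) ^ 2 ∣ J ((η : 𝓞 K) ^ p - η') := by
    rw [map_sub, map_pow]
    exact hco.dvd_of_dvd_mul_left hleo2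
  -- descent
  have hpK : (p : K) ≠ 0 := by exact_mod_cast hp.ne_zero
  have hdesc : ∀ x : 𝓞 K, (p : 𝓞 L) ^ 2 ∣ J x → (p : 𝓞 K) ^ 2 ∣ x := by
    rintro x ⟨y, hy⟩
    have h2 : j ((x : K) / (p : K) ^ 2) = (y : L) := by
      have h3 := congrArg (algebraMap (𝓞 L) L) hy
      rw [map_mul, map_pow, map_natCast] at h3
      have h4 : algebraMap (𝓞 L) L (J x) = j (x : K) := hJ x
      rw [h4] at h3
      rw [map_div₀, map_pow, map_natCast, h3]
      have : (p : L) ≠ 0 := by exact_mod_cast hp.ne_zero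
      rw [mul_div_cancel_left₀ _ (pow_ne_zero 2 this)]
    have h3 : IsIntegral ℤ ((x : K) / (p : K) ^ 2) := by
      have h4 : IsIntegral ℤ (j ((x : K) / (p : K) ^ 2)) := by
        rw [h2]
        exact y.isIntegral_coe
      exact (isIntegral_algHom_iff j.toIntAlgHom j.injective).1 h4
    obtain ⟨x', hx'⟩ : ∃ x' : 𝓞 K, (x' : K) = (x : K) / (p : K) ^ 2 := ⟨⟨_, h3⟩, rfl⟩
    refine ⟨x', RingOfIntegers.coe_injective ?_⟩
    rw [map_mul, map_pow, map_natCast]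
    have e : algebraMap (𝓞 K) K x' = (x : K) / (p : K) ^ 2 := hx'
    rw [e]
    field_simp
  have h6 := hdesc _ hleo3
  have h7 : (p : 𝓞 K) ^ 2 ∣ (η : 𝓞 K) ^ (p ^ 2) - (η : 𝓞 K) := by
    have e1 : (η : 𝓞 K) ^ (p ^ 2) = ((η : 𝓞 K) ^ p) ^ p := by rw [← pow_mul, sq]
    have h8 : (p : 𝓞 K) ^ 2 ∣ ((η : 𝓞 K) ^ p) ^ p - η' ^ p :=
      h6.trans (sub_dvd_pow_sub_pow _ _ p)
    have h9 : (p : 𝓞 K) ^ 2 ∣ η' ^ p - (η : 𝓞 K) := by
      rcases hηη with h | h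
      · rw [h] at h6 ⊢
        exact h6
      · have h10 := map_dvd σ h6
        rw [map_pow, map_natCast, map_sub, map_pow, h, hσσ] at h10
        rw [h]
        exact h10
    rw [e1]
    have e2 : ((η : 𝓞 K) ^ p) ^ p - (η : 𝓞 K) =
        (((η : 𝓞 K) ^ p) ^ p - η' ^ p) + (η' ^ p - (η : 𝓞 K)) := by ring
    rw [e2]
    exact dvd_add h8 h9
  obtain ⟨u, hu'⟩ := hu
  exact hu' (K3h77.RQ.t_UW p hp hp2 K hK (fun P hP => hUNR d p h1 hd hp hp2 hpD K hK s hs P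
    (by exact_mod_cast hP)) η I hI h7 hunits u)

end

end Pool.Agent.K3h44.RQ
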