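import Pool.Agent.K3h44.RQ.AsmB
import Pool.Agent.K3h44.RQ.Main
import Pool.Agent.K3h4.RQ.BERJ
import Pool.Agent.K3h4.RQ.RELA
import Pool.Agent.K3h12.RQ.ALG3
import Pool.Agent.K3h48.RQ.RELB
import Pool.Agent.K3h60.RQ.J3
import Pool.Agent.K3h76.RQ.FLJ

/-!
# Project RQ, third part: the congruence for the norms from generalized Bernoulli numbers
-/

set_option autoImplicit false

namespace Pool.Agent.K3h44.RQ

open NumberField IsDedekindDomain Pool.Agent.Y546.WQ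

/-- the sum over the units as a sum over natural numbers -/
theorem sum_eqj {m : ℕ} [NeZero m] {p : ℕ} [Fact p.Prime] (hpm : p ∣ m) (hm : 1 < m)
    (d a j : ℕ) :
    (∑ t ∈ hfM m a, ((chi d (t : ZMod m).val : ℤ) : ZMod p) *
      (((t⁻¹ : (ZMod m)ˣ) : ZMod m).val : ZMod p) ^ j) =
    ∑ t ∈ (Finset.range m).filter (fun t => t.Coprime m ∧ m < t + (a * t) % m),
      ((chi d t : ℤ) : ZMod p) * ((t : ZMod p)⁻¹) ^ j := by
  have hm0 : m ≠ 0 := NeZero.ne m
  refine Finset.sum_bij (fun t _ => (t : ZMod m).val) ?_ ?_ ?_ ?_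
  · intro t ht
    simp only [hfM, Finset.mem_filter, Finset.mem_univ, true_and] at ht
    simp only [Finset.mem_filter, Finset.mem_range]
    refine ⟨ZMod.val_lt _, ZMod.val_coe_unit_coprime t, ?_⟩
    have h1 : ((a : ZMod m) * (t : ZMod m)).val = (a * (t : ZMod m).val) % m := by
      rw [← ZMod.val_natCast]
      push_cast
      rw [ZMod.natCast_zmod_val]
    rw [← h1]
    exact ht
  · intro t _ t' _ h
    exact Units.ext (ZMod.val_injective m h)
  · intro t ht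
    simp only [Finset.mem_filter, Finset.mem_range] at ht
    obtain ⟨h1, h2, h3⟩ := ht
    have h4 : ((ZMod.unitOfCoprime t h2 : (ZMod m)ˣ) : ZMod m).val = t := by
      rw [ZMod.coe_unitOfCoprime, ZMod.val_natCast, Nat.mod_eq_of_lt h1]
    refine ⟨ZMod.unitOfCoprime t h2, ?_, h4⟩
    simp only [hfM, Finset.mem_filter, Finset.mem_univ, true_and]
    rw [h4, ZMod.coe_unitOfCoprime, ← Nat.cast_mul, ZMod.val_natCast]
    exact h3
  · intro t _
    congr 2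
    have h1 : (((t : ZMod m).val : ℕ) : ZMod p) = ((t : ZMod m)).cast := by
      rw [ZMod.natCast_val]
    have h2 : ((((t⁻¹ : (ZMod m)ˣ) : ZMod m).val : ℕ) : ZMod p) =
        (((t⁻¹ : (ZMod m)ˣ) : ZMod m)).cast := by
      rw [ZMod.natCast_val]
    rw [h1, h2]
    have h3 : (((t : ZMod m)).cast : ZMod p) * (((t⁻¹ : (ZMod m)ˣ) : ZMod m)).cast = 1 := by
      rw [← ZMod.cast_mul hpm, ← Units.val_mul, mul_inv_cancel, Units.val_one, ZMod.cast_one hpm]
    exact eq_inv_of_mul_eq_one_right h3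

/-- the character is `1` at the numbers congruent to `1` modulo the discriminant -/
theorem chi_one {d : ℕ} (h1 : 1 < d) (hd : Squarefree d) {t : ℕ} (ht : t.Coprime (dsc d))
    (h : t % dsc d = 1 % dsc d) : chi d t = 1 := by
  have h5 := dsc_ge h1
  have hne0 : NeZero (dsc d) := ⟨by omega⟩
  obtain ⟨χ, -, -, -, hχ⟩ := K3h20.RQ.t_PRIM d h1 hd
  have h2 := hχ t ht
  have h3 : (t : ZMod (dsc d)) = 1 := by
    have : ((t : ℕ) : ZMod (dsc d)) = ((1 : ℕ) : ZMod (dsc d)) :=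
      (ZMod.natCast_eq_natCast_iff' _ _ _).2 h
    rw [this, Nat.cast_one]
  rw [h3, map_one] at h2
  exact_mod_cast h2.symm

section

variable {K : Type} [Field K] [NumberField K]

/-- the congruence for the norms from the twisted Stickelberger sum of exponent three -/
theorem divTopB (hK : Module.finrank ℚ K = 2)
    {d : ℕ} (h1 : 1 < d) (hd : Squarefree d) (s : K) (hs : s ^ 2 = (d : K)) {p : ℕ}
    (hp : p.Prime) (h7 : 7 ≤ p) (hpD : ¬ p ∣ dsc d) (a : ℕ) (ha : 0 < a)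
    (ham : a + 2 ≤ p * dsc d)
    (hne : (∑ t ∈ (Finset.range (p * dsc d)).filter (fun t => t.Coprime (p * dsc d) ∧
      p * dsc d < t + (a * t) % (p * dsc d)), ((chi d t : ℤ) : ZMod p) *
        ((t : ZMod p)⁻¹) ^ 3) ≠ 0)
    (σ : 𝓞 K →+* 𝓞 K)
    (hN : ∀ a : 𝓞 K, ((Algebra.norm ℤ a : ℤ) : 𝓞 K) = a * σ a)
    (hT : ∀ a : 𝓞 K, ((Algebra.trace ℤ (𝓞 K) a : ℤ) : 𝓞 K) = a + σ a) : Div p K σ := by
  have hp2 : p ≠ 2 := by omega
  have h5 := dsc_ge h1
  obtain ⟨m, hm⟩ : ∃ m, m = p * dsc d := ⟨_, rfl⟩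
  have hm15 : 15 ≤ m := by
    rw [hm]
    nlinarith
  have hne0 : NeZero m := ⟨by omega⟩
  have hpf : Fact p.Prime := ⟨hp⟩
  obtain ⟨F, _, _, ⟨c⟩⟩ := K3h57.RQ.t_CYCM m (by omega)
  obtain ⟨r, hr, hσ⟩ := aSQRT d h1 hd m (by rw [hm]; exact dvd_mul_left _ _) F c
  obtain ⟨j, hj⟩ := K3h67.RQ.t_EMB K hK d h1 hd s hs σ hN hT F r hr
  obtain ⟨t₀, ht₀⟩ := exists_neg c h1 hd r hr hσ
  have key : ∀ X Y Z : 𝓞 K, Sol p K X Y Z →
      (p : ℤ) ∣ Algebra.trace ℤ (𝓞 K) (X * σ Y) ^ 2 -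
        4 * (Algebra.norm ℤ X * Algebra.norm ℤ Y) ∨
      (p : ℤ) ∣ 2 * (Algebra.norm ℤ X - Algebra.norm ℤ Y) ^ 2 -
        (Algebra.norm ℤ X + Algebra.norm ℤ Y) * Algebra.norm ℤ (X + Y) := by
    intro X Y Z sol
    refine divB aUNITM K3h20.RQ.t_APPR K3h4.RQ.t_RELA K3h48.RQ.t_RELB K3h60.RQ.t_J3 hp (by omega)
      hm hpD a ha (by rw [hm]; exact ham) c σ hN hT j (fun t => chi d (t : ZMod m).val) ?_ ?_ ?_
      t₀ ht₀ ?_ sol
    · intro t
      have h2 := hj ((c.σ t : F ≃ₐ[ℚ] F) : F →+* F)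
      rcases chi_pm c h1 r hr hσ t with h | h
      · refine Or.inl ⟨h, h2.1 ?_⟩
        have h3 := hσ t
        rw [h, Int.cast_one, one_mul] at h3
        exact h3
      · refine Or.inr ⟨h, h2.2 ?_⟩
        have h3 := hσ t
        rw [h, Int.cast_neg, Int.cast_one, neg_one_mul] at h3
        exact h3
    · intro u hu
      have h2 : (u : ZMod m).val.Coprime m := ZMod.val_coe_unit_coprime u
      exact chi_one h1 hd (h2.coprime_dvd_right (by rw [hm]; exact dvd_mul_left _ _)) hu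
    · intro Q hQ
      exact K3h92.RQ.t_UNR d p h1 hd hp hp2 hpD K hK s hs Q hQ
    · rw [sum_eqj (by rw [hm]; exact dvd_mul_right _ _) (by omega), hm]
      exact hne
  -- in the residue field
  have key2 : ∀ X Y Z : 𝓞 K, Sol p K X Y Z → ∀ A B G : ZMod p,
      A = (Algebra.norm ℤ X : ℤ) → B = (Algebra.norm ℤ Y : ℤ) → G = (Algebra.norm ℤ Z : ℤ) →
      A ≠ 0 ∧ ((Algebra.trace ℤ (𝓞 K) (X * σ Y) ^ 2 - 4 * (Algebra.norm ℤ X * Algebra.norm ℤ Y) : ℤ)
        : ZMod p) = A ^ 2 + B ^ 2 + G ^ 2 - 2 * A * B - 2 * B * G - 2 * G * A ∧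
      (A ^ 2 + B ^ 2 + G ^ 2 - 2 * A * B - 2 * B * G - 2 * G * A = 0 ∨
        (A + B) * G = 2 * (A - B) ^ 2) := by
    intro X Y Z sol A B G hA hB hG
    have dC := datC σ hK hN hT sol
    have hcp := dC.cp
    rw [← hA, ← hB, ← hG] at hcp
    obtain ⟨t, ht⟩ : ∃ t : ℤ, t = Algebra.trace ℤ (𝓞 K) (X * σ Y) := ⟨_, rfl⟩
    rw [← ht] at hcp
    have hsum : Algebra.norm ℤ (X + Y) = Algebra.norm ℤ X + Algebra.trace ℤ (𝓞 K) (X * σ Y) +
        Algebra.norm ℤ Y := by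
      have hσσ := conj_conj σ hT
      have h2 : ((Algebra.norm ℤ (X + Y) : ℤ) : 𝓞 K) = ((Algebra.norm ℤ X +
          Algebra.trace ℤ (𝓞 K) (X * σ Y) + Algebra.norm ℤ Y : ℤ) : 𝓞 K) := by
        push_cast
        rw [hN, hN, hN, hT, map_mul, hσσ, map_add]
        ring
      exact_mod_cast h2
    have hG2 : ((Algebra.norm ℤ (X + Y) : ℤ) : ZMod p) = G := by
      rw [hsum]
      push_cast
      rw [← hA, ← hB, ← ht]
      linear_combination hcp
    have htG : (t : ZMod p) = G - A - B := by linear_combination hcp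
    refine ⟨by rw [hA]; exact dC.A0, ?_, ?_⟩
    · push_cast
      rw [← hA, ← hB, ← ht, htG]
      ring
    · rcases key X Y Z sol with h | h
      · left
        rw [← ZMod.intCast_zmod_eq_zero_iff_dvd] at h
        push_cast at h
        rw [← hA, ← hB, ← ht, htG] at h
        linear_combination h
      · right
        rw [← ZMod.intCast_zmod_eq_zero_iff_dvd] at h
        push_cast at h
        rw [← hA, ← hB, hG2] at h
        linear_combination -h
  intro X Y Z sol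
  obtain ⟨A0, e1, e2⟩ := key2 X Y Z sol _ _ _ rfl rfl rfl
  obtain ⟨B0, -, e3⟩ := key2 Y Z X sol.rot _ _ _ rfl rfl rfl
  obtain ⟨G0, -, e4⟩ := key2 Z X Y sol.rot.rot _ _ _ rfl rfl rfl
  rw [← ZMod.intCast_zmod_eq_zero_iff_dvd, e1]
  rcases e2 with e2 | e2
  · exact e2
  rcases e3 with e3 | e3
  · linear_combination e3
  rcases e4 with e4 | e4
  · linear_combination e4
  exact (K3h12.RQ.t_ALG3 p h7 _ _ _ A0 B0 G0 e2 e3 e4).elim

/-- the congruence for the norms from generalized Bernoulli numbers -/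
theorem divBern (hK : Module.finrank ℚ K = 2)
    {d : ℕ} (h1 : 1 < d) (hd : Squarefree d) (s : K) (hs : s ^ 2 = (d : K)) {p : ℕ}
    (hp : p.Prime) (h7 : 7 ≤ p) (hB : ¬ (p : ℤ) ∣ (Bchi d (p - 3)).num)
    (σ : 𝓞 K →+* 𝓞 K)
    (hN : ∀ a : 𝓞 K, ((Algebra.norm ℤ a : ℤ) : 𝓞 K) = a * σ a)
    (hT : ∀ a : 𝓞 K, ((Algebra.trace ℤ (𝓞 K) a : ℤ) : 𝓞 K) = a + σ a) : Div p K σ := by
  have hp2 : p ≠ 2 := by omega
  by_cases hpd : p ∣ d
  · exact divRam σ hN hT h1 hd s hs hp hpd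
  have hpD : ¬ p ∣ dsc d := by
    unfold dsc
    split_ifs with h
    · exact hpd
    · intro h2
      rcases (Nat.Prime.dvd_mul hp).1 h2 with h3 | h3
      · have h4 : p ∣ 2 := by
          have : p ∣ 2 ^ 2 := by norm_num; exact h3
          exact hp.dvd_of_dvd_pow this
        exact hp2 ((Nat.prime_dvd_prime_iff_eq hp Nat.prime_two).1 h4)
      · exact hpd h3
  have hTJ : TJ d p 3 ≠ 0 := fun h =>
    hB (K3h4.RQ.BERJ.t_BERJ d p 3 h1 hd hp hp2 hpD (by norm_num) (by omega) h)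
  obtain ⟨a, ha, ham, hne⟩ := K3h76.RQ.t_FLJ d p 3 h1 hd hp hp2 hpD hTJ
  exact divTopB hK h1 hd s hs hp h7 hpD a ha ham hne σ hN hT

end

end Pool.Agent.K3h44.RQ
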