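import Pool.Agent.K3h44.RQ.AsmE
import Pool.Agent.K3h44.RQ.Top3

/-!
# Project RQ, fourth part: the congruence for the norms from few irregular indices
-/

set_option autoImplicit false

namespace Pool.Agent.K3h44.RQ

open NumberField IsDedekindDomain Pool.Agent.Y546.WQ

section

variable {K : Type} [Field K] [NumberField K]

/-- the congruence for the norms from few irregular indices -/
theorem divEich (hCJ : S_CJ) (hLQ : S_LINQ) (hLE : S_LINE) (hK : Module.finrank ℚ K = 2)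
    {d : ℕ} (h1 : 1 < d) (hd : Squarefree d) (s : K) (hs : s ^ 2 = (d : K)) {p : ℕ}
    (hp : p.Prime) (h7 : 7 ≤ p) (hpD : ¬ p ∣ dsc d) (S : Finset ℕ)
    (hS : ∀ l, Odd l → l + 2 ≤ p → l ∉ S → TJ d p l ≠ 0)
    (hc : 2 * ((S.card + 1) * (S.card + 2)) + 3 ≤ p)
    (σ : 𝓞 K →+* 𝓞 K)
    (hN : ∀ a : 𝓞 K, ((Algebra.norm ℤ a : ℤ) : 𝓞 K) = a * σ a)
    (hT : ∀ a : 𝓞 K, ((Algebra.trace ℤ (𝓞 K) a : ℤ) : 𝓞 K) = a + σ a) : Div p K σ := by
  have hp2 : p ≠ 2 := by omega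
  have h5 := dsc_ge h1
  obtain ⟨m, hm⟩ : ∃ m, m = p * dsc d := ⟨_, rfl⟩
  have hm15 : 15 ≤ m := by
    rw [hm]
    nlinarith
  have hne0 : NeZero m := ⟨by omega⟩
  have hpf : Fact p.Prime := ⟨hp⟩
  have hodd : Odd p := hp.odd_of_ne_two hp2
  have hσσ := conj_conj σ hT
  obtain ⟨F, _, _, ⟨c⟩⟩ := K3h57.RQ.t_CYCM m (by omega)
  obtain ⟨r, hr, hσ⟩ := aSQRT d h1 hd m (by rw [hm]; exact dvd_mul_left _ _) F c
  obtain ⟨j, hj⟩ := K3h67.RQ.t_EMB K hK d h1 hd s hs σ hN hT F r hr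
  obtain ⟨t₀, ht₀⟩ := exists_neg c h1 hd r hr hσ
  obtain ⟨J, hJ⟩ : ∃ J : 𝓞 K →+* 𝓞 F, ∀ x : 𝓞 K, ((J x : 𝓞 F) : F) = j (x : K) :=
    ⟨RingOfIntegers.mapRingHom j, fun x => rfl⟩
  obtain ⟨M, hM, hpM⟩ := exists_above (K := F) p hp
  have hM0 : M ≠ ⊥ := by
    rintro rfl
    rw [Ideal.mem_bot] at hpM
    exact hp.ne_zero (by exact_mod_cast hpM)
  obtain ⟨P, hP⟩ : ∃ P : HeightOneSpectrum (𝓞 F), P.asIdeal = M := ⟨⟨M, hM, hM0⟩, rfl⟩
  have hpP : ((p : ℕ) : 𝓞 F) ∈ P.asIdeal := by rw [hP]; exact hpM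
  obtain ⟨q, hq⟩ : ∃ q : Ideal (𝓞 K), q = P.asIdeal.comap J := ⟨_, rfl⟩
  have hqp : q.IsPrime := by
    rw [hq]
    exact P.isPrime.comap J
  have hpq : ((p : ℕ) : 𝓞 K) ∈ q := by
    rw [hq, Ideal.mem_comap, map_natCast]
    exact hpP
  have hqmem : ∀ a : 𝓞 K, a ∈ q ↔ P.valuation F (j (a : K)) < 1 := by
    intro a
    rw [hq, Ideal.mem_comap, ← hJ, val_lt_iff]
  have hq0 : q ≠ ⊥ := by
    rintro h
    rw [h, Ideal.mem_bot] at hpq
    exact hp.ne_zero (by exact_mod_cast hpq)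
  have hqm : q.IsMaximal := hqp.isMaximal hq0
  letI : Field (𝓞 K ⧸ q) := Ideal.Quotient.field q
  have hchar : CharP (𝓞 K ⧸ q) p := by
    rw [CharP.charP_iff_prime_eq_zero hp]
    have h1 : Ideal.Quotient.mk q ((p : ℕ) : 𝓞 K) = 0 := Ideal.Quotient.eq_zero_iff_mem.2 hpq
    rw [map_natCast] at h1
    exact h1
  have hπ : ∀ a : 𝓞 K, Ideal.Quotient.mk q a = 0 ↔ P.valuation F (j (a : K)) < 1 := by
    intro a
    rw [Ideal.Quotient.eq_zero_iff_mem, hqmem]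
  intro X Y Z sol
  by_contra hΔ
  -- sums are not divisible by primes above `p`
  have hsumK : ∀ Q : Ideal (𝓞 K), Q.IsPrime → ((p : ℕ) : 𝓞 K) ∈ Q →
      X + Y ∉ Q ∧ σ X + σ Y ∉ Q := by
    have h1 : ∀ Q : Ideal (𝓞 K), Q.IsPrime → ((p : ℕ) : 𝓞 K) ∈ Q → X + Y ∉ Q := by
      intro Q hQ hpQ h
      refine (sol.cp Q hQ hpQ).2.2 (hQ.mem_of_pow_mem p ?_)
      have e : Z ^ p = -(X ^ p + Y ^ p) := by linear_combination sol.eq
      rw [e]
      exact neg_mem (Ideal.mem_of_dvd Q (Odd.add_dvd_pow_add_pow _ _ hodd) h)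
    intro Q hQ hpQ
    refine ⟨h1 Q hQ hpQ, fun h => ?_⟩
    refine h1 (Q.comap σ) (hQ.comap σ) ?_ ?_
    · rw [Ideal.mem_comap, map_natCast]
      exact hpQ
    · rw [Ideal.mem_comap, map_add]
      exact h
  obtain ⟨π, hπd⟩ : ∃ π : 𝓞 K →+* 𝓞 K ⧸ q, π = Ideal.Quotient.mk q := ⟨_, rfl⟩
  rw [← hπd] at hπ
  have hπne : ∀ a : 𝓞 K, a ∉ q → π a ≠ 0 := fun a ha h =>
    ha ((hqmem a).2 ((hπ a).1 h))
  have hint : ∀ n : ℤ, (p : ℤ) ∣ n ↔ π (n : 𝓞 K) = 0 := by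
    intro n
    rw [map_intCast, CharP.intCast_eq_zero_iff (𝓞 K ⧸ q) p]
  have dC := datC σ hK hN hT sol
  have dC' := datC σ hK hN hT sol.rot
  have dC'' := datC σ hK hN hT sol.rot.rot
  have hxy : π X * π (σ Y) ≠ π (σ X) * π Y := by
    intro h
    apply hΔ
    rw [hint]
    have e : ((Algebra.trace ℤ (𝓞 K) (X * σ Y) ^ 2 -
        4 * (Algebra.norm ℤ X * Algebra.norm ℤ Y) : ℤ) : 𝓞 K) =
        (X * σ Y - σ X * Y) * (X * σ Y - σ X * Y) := by
      push_cast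
      rw [hT, hN, hN, map_mul, hσσ]
      ring
    rw [e, map_mul, map_sub, map_mul, map_mul, h, sub_self, mul_zero]
  have hA : ZMod.castHom (dvd_refl p) (𝓞 K ⧸ q) ((Algebra.norm ℤ X : ℤ) : ZMod p) =
      π X * π (σ X) := by
    rw [map_intCast, ← map_mul, ← hN, map_intCast]
  have hB : ZMod.castHom (dvd_refl p) (𝓞 K ⧸ q) ((Algebra.norm ℤ Y : ℤ) : ZMod p) =
      π Y * π (σ Y) := by
    rw [map_intCast, ← map_mul, ← hN, map_intCast]
  have ht : ZMod.castHom (dvd_refl p) (𝓞 K ⧸ q)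
      ((Algebra.trace ℤ (𝓞 K) (X * σ Y) : ℤ) : ZMod p) = π X * π (σ Y) + π (σ X) * π Y := by
    rw [map_intCast, ← map_mul, ← map_mul, ← map_add]
    have e : X * σ Y + σ X * Y = ((Algebra.trace ℤ (𝓞 K) (X * σ Y) : ℤ) : 𝓞 K) := by
      rw [hT, map_mul, hσσ]
    rw [e, map_intCast]
  refine hLE p ((Algebra.norm ℤ X : ℤ) : ZMod p)
    ((Algebra.trace ℤ (𝓞 K) (X * σ Y) : ℤ) : ZMod p) ((Algebra.norm ℤ Y : ℤ) : ZMod p) S
    (by omega) dC.A0 dC'.A0 ?_ ?_ hc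
  · have h2 := dC.cp
    intro h3
    apply dC''.A0
    rw [← h2, ← h3]
    ring
  · intro l hl hlp hlS
    obtain ⟨a, ha, ham, hne⟩ := K3h76.RQ.t_FLJ d p l h1 hd hp hp2 hpD (hS l hl hlp hlS)
    refine hLQ p (𝓞 K ⧸ q) (π X) (π Y) (π (σ X)) (π (σ Y)) _ _ _ hA ht hB ?_ ?_ hxy (l - 1) ?_
    · rw [← map_add]
      exact hπne _ (hsumK q hqp hpq).1
    · rw [← map_add]
      exact hπne _ (hsumK q hqp hpq).2
    · refine cumEq aUNITM K3h20.RQ.t_APPR K3h4.RQ.t_RELA K3h48.RQ.t_RELB hCJ hp (by omega)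
        hm hpD a ha (by rw [hm]; exact ham) c σ hT j (fun t => chi d (t : ZMod m).val) ?_ ?_ ?_
        t₀ ht₀ sol P hpP (𝓞 K ⧸ q) π hπ l ?_ hlp ?_
      · intro t
        have h2 := hj ((c.σ t : F ≃ₐ[ℚ] F) : F →+* F)
        rcases chi_pm c h1 r hr hσ t with h | h
        · refine Or.inl ⟨h, h2.1 ?_⟩
          have h3 := hσ t
          rw [h, Int.cast_one, one_mul] at h3
          exact h3
        · refine Or.inr ⟨h, h2.2 ?_⟩
          have h3 := hσ t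
          rw [h, Int.cast_neg, Int.cast_one, neg_one_mul] at h3
          exact h3
      · intro u hu
        have h2 : (u : ZMod m).val.Coprime m := ZMod.val_coe_unit_coprime u
        exact chi_one h1 hd (h2.coprime_dvd_right (by rw [hm]; exact dvd_mul_left _ _)) hu
      · intro Q hQ
        exact K3h92.RQ.t_UNR d p h1 hd hp hp2 hpD K hK s hs Q hQ
      · obtain ⟨n, hn⟩ := hl
        omega
      · rw [sum_eqj (by rw [hm]; exact dvd_mul_right _ _) (by omega), hm]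
        exact hne

/-- the even numbers `k` with `2 ≤ k ≤ p - 1` for which `p` divides the numerator of the
generalized Bernoulli number with index `k` of the character of `ℚ(√d)` -/
noncomputable def irrB (d p : ℕ) : Finset ℕ :=
  (Finset.range p).filter fun k => Even k ∧ 2 ≤ k ∧ (p : ℤ) ∣ (Bchi d k).num

/-- the congruence for the norms from few irregular indices -/
theorem divEich2 (hCJ : S_CJ) (hLQ : S_LINQ) (hLE : S_LINE) (hK : Module.finrank ℚ K = 2)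
    {d : ℕ} (h1 : 1 < d) (hd : Squarefree d) (s : K) (hs : s ^ 2 = (d : K)) {p : ℕ}
    (hp : p.Prime) (h7 : 7 ≤ p)
    (hc : 2 * (((irrB d p).card + 1) * ((irrB d p).card + 2)) + 3 ≤ p)
    (σ : 𝓞 K →+* 𝓞 K)
    (hN : ∀ a : 𝓞 K, ((Algebra.norm ℤ a : ℤ) : 𝓞 K) = a * σ a)
    (hT : ∀ a : 𝓞 K, ((Algebra.trace ℤ (𝓞 K) a : ℤ) : 𝓞 K) = a + σ a) : Div p K σ := by
  have hp2 : p ≠ 2 := by omega
  by_cases hpd : p ∣ d
  · exact divRam σ hN hT h1 hd s hs hp hpd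
  have hpD : ¬ p ∣ dsc d := by
    unfold dsc
    split_ifs with h
    · exact hpd
    · intro h2
      rcases (Nat.Prime.dvd_mul hp).1 h2 with h3 | h3
      · have h4 : p ∣ 2 := by
          have : p ∣ 2 ^ 2 := by norm_num; exact h3
          exact hp.dvd_of_dvd_pow this
        exact hp2 ((Nat.prime_dvd_prime_iff_eq hp Nat.prime_two).1 h4)
      · exact hpd h3
  refine divEich hCJ hLQ hLE hK h1 hd s hs hp h7 hpD ((irrB d p).image fun k => p - k) ?_ ?_ σ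
    hN hT
  · intro l hl hlp hlS hTJ
    apply hlS
    have hl1 : 0 < l := by
      obtain ⟨n, hn⟩ := hl
      omega
    have h2 := K3h4.RQ.BERJ.t_BERJ d p l h1 hd hp hp2 hpD hl1 hlp hTJ
    rw [Finset.mem_image]
    refine ⟨p - l, ?_, by omega⟩
    unfold irrB
    rw [Finset.mem_filter, Finset.mem_range]
    refine ⟨by omega, ?_, by omega, h2⟩
    have hpo : Odd p := hp.odd_of_ne_two hp2
    exact Nat.Odd.sub_odd hpo hl
  · refine le_trans ?_ hc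
    have : ((irrB d p).image fun k => p - k).card ≤ (irrB d p).card := Finset.card_image_le
    gcongr

end

end Pool.Agent.K3h44.RQ
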